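import Mathlib

/-! Elementary facts on continued fractions with partial quotients at least two. -/

set_option autoImplicit false

namespace Pool.Agent.K4H3.WS

open Filter Topology

/-- a sequence of convergents: `r n = p (n + 1) / q (n + 1)` -/
structure Cv (a : ℕ → ℕ) (p : ℕ → ℤ) (q : ℕ → ℕ) : Prop where
  q0 : q 0 = 0
  q1 : q 1 = 1
  p0 : p 0 = 1
  p1 : p 1 = 0
  qs : ∀ n, q (n + 2) = a n * q (n + 1) + q n
  ps : ∀ n, p (n + 2) = a n * p (n + 1) + p n
  a2 : ∀ n, 2 ≤ a n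

namespace Cv

variable {a : ℕ → ℕ} {p : ℕ → ℤ} {q : ℕ → ℕ}

lemma det (h : Cv a p q) (n : ℕ) :
    p (n + 1) * q n - p n * q (n + 1) = 1 ∨ p (n + 1) * q n - p n * q (n + 1) = -1 := by
  induction n with
  | zero => right; simp [h.q0, h.q1, h.p0, h.p1]
  | succ n ih =>
    rw [h.qs, h.ps]
    push_cast
    rcases ih with ih | ih
    · right; linear_combination -ih
    · left; linear_combination -ih

lemma q_pos (h : Cv a p q) (n : ℕ) : 1 ≤ q (n + 1) := by
  induction n with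
  | zero => rw [h.q1]
  | succ n ih =>
    rw [h.qs]
    have := h.a2 n
    nlinarith

lemma q_double (h : Cv a p q) (n : ℕ) : 2 * q (n + 1) ≤ q (n + 2) := by
  rw [h.qs]
  have := h.a2 n
  nlinarith

lemma q_mono1 (h : Cv a p q) (n : ℕ) : q n ≤ q (n + 1) := by
  rcases n with _ | n
  · rw [h.q0]; omega
  · have := h.q_double n
    change q (n + 1) ≤ q (n + 2)
    omega

lemma q_strict (h : Cv a p q) (n : ℕ) : q n < q (n + 1) := by
  rcases n with _ | n
  · rw [h.q0, h.q1]; omega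
  · have := h.q_double n
    have := h.q_pos n
    change q (n + 1) < q (n + 2)
    omega

lemma q_strictMono (h : Cv a p q) : StrictMono q := strictMono_nat_of_lt_succ h.q_strict

lemma q_ge (h : Cv a p q) (n : ℕ) : n ≤ q n := h.q_strictMono.id_le n

lemma coprime (h : Cv a p q) (n : ℕ) : IsCoprime (p (n + 1)) (q (n + 1) : ℤ) := by
  rcases h.det n with h1 | h1
  · exact ⟨q n, -p n, by linarith⟩
  · exact ⟨-q n, p n, by linarith⟩

/-- the convergents -/
noncomputable def r (p : ℕ → ℤ) (q : ℕ → ℕ) (n : ℕ) : ℝ := (p (n + 1) : ℝ) / q (n + 1)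

lemma dist_r (h : Cv a p q) (n : ℕ) :
    |r p q n - r p q (n + 1)| = 1 / ((q (n + 1) : ℝ) * q (n + 2)) := by
  have h1 : (0 : ℝ) < q (n + 1) := by exact_mod_cast h.q_pos n
  have h2 : (0 : ℝ) < q (n + 2) := by exact_mod_cast h.q_pos (n + 1)
  have h3 : r p q n - r p q (n + 1) =
      -((p (n + 2) * q (n + 1) - p (n + 1) * q (n + 2) : ℤ) : ℝ) / ((q (n + 1) : ℝ) * q (n + 2)) := by
    unfold r
    push_cast
    field_simp
    ring
  rw [h3, abs_div, abs_neg, abs_of_pos (mul_pos h1 h2)]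
  congr 1
  rcases h.det (n + 1) with h4 | h4
  · rw [show n + 1 + 1 = n + 2 from rfl] at h4
    rw [h4]; simp
  · rw [show n + 1 + 1 = n + 2 from rfl] at h4
    rw [h4]; simp

lemma prod_ge (h : Cv a p q) (n m : ℕ) :
    4 ^ m * ((q (n + 1) : ℝ) * q (n + 2)) ≤ (q (n + m + 1) : ℝ) * q (n + m + 2) := by
  induction m with
  | zero => simp
  | succ m ih =>
    have h1 : (2 : ℝ) * q (n + m + 1) ≤ q (n + m + 2) := by exact_mod_cast h.q_double (n + m)
    have h2 : (2 : ℝ) * q (n + m + 2) ≤ q (n + m + 3) := by exact_mod_cast h.q_double (n + m + 1)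
    have h3 : (0 : ℝ) ≤ q (n + m + 1) := by positivity
    have h4 : (0 : ℝ) ≤ q (n + m + 2) := by positivity
    calc (4 : ℝ) ^ (m + 1) * ((q (n + 1) : ℝ) * q (n + 2))
        = 4 * (4 ^ m * ((q (n + 1) : ℝ) * q (n + 2))) := by ring
      _ ≤ 4 * ((q (n + m + 1) : ℝ) * q (n + m + 2)) := by linarith
      _ = (2 * (q (n + m + 1) : ℝ)) * (2 * q (n + m + 2)) := by ring
      _ ≤ (q (n + m + 2) : ℝ) * q (n + m + 3) := by
        apply mul_le_mul h1 h2 (by positivity) h4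

lemma dist_r_le (h : Cv a p q) (n m : ℕ) :
    dist (r p q (n + m)) (r p q (n + (m + 1))) ≤
      (1 / ((q (n + 1) : ℝ) * q (n + 2))) * (1 / 4) ^ m := by
  rw [Real.dist_eq, show n + (m + 1) = n + m + 1 by ring, h.dist_r]
  have h1 : (0 : ℝ) < q (n + 1) := by exact_mod_cast h.q_pos n
  have h2 : (0 : ℝ) < q (n + 2) := by exact_mod_cast h.q_pos (n + 1)
  rw [one_div_pow, one_div_mul_one_div]
  apply one_div_le_one_div_of_le (by positivity)
  rw [mul_comm _ ((4 : ℝ) ^ m)]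
  exact h.prod_ge n m

theorem exists_lim (h : Cv a p q) : ∃ y : ℝ, ∀ n,
    |y - r p q n| ≤ (4 / 3) / ((q (n + 1) : ℝ) * q (n + 2)) := by
  have hc : CauchySeq (r p q) := by
    apply cauchySeq_of_le_geometric (1 / 4) (1 / ((q (0 + 1) : ℝ) * q (0 + 2))) (by norm_num)
    intro n
    have := h.dist_r_le 0 n
    simpa using this
  obtain ⟨y, hy⟩ := cauchySeq_tendsto_of_complete hc
  refine ⟨y, fun n => ?_⟩
  have h1 := dist_le_of_le_geometric_of_tendsto₀ (f := fun m => r p q (n + m)) (1 / 4)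
    (1 / ((q (n + 1) : ℝ) * q (n + 2))) (by norm_num) (fun m => h.dist_r_le n m)
    (a := y) (by
      have := hy.comp (tendsto_add_atTop_nat n)
      refine this.congr (fun m => ?_)
      simp only [Function.comp]
      congr 1; ring)
  simp only [add_zero] at h1
  rw [dist_comm, Real.dist_eq] at h1
  refine h1.trans (le_of_eq ?_)
  have h2 : (0 : ℝ) < q (n + 1) := by exact_mod_cast h.q_pos n
  have h3 : (0 : ℝ) < q (n + 2) := by exact_mod_cast h.q_pos (n + 1)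
  field_simp
  norm_num

/-- no rational is too close -/
theorem far (h : Cv a p q) {y : ℝ}
    (hy : ∀ n, |y - r p q n| ≤ (4 / 3) / ((q (n + 1) : ℝ) * q (n + 2)))
    {τ K : ℝ} (hK : 0 < K) (hτ : 1 ≤ τ) (hgr : ∀ n, (q (n + 2) : ℝ) ≤ K * (q (n + 1) : ℝ) ^ (τ - 1))
    (b : ℤ) (s : ℕ) (hs : 1 ≤ s) : (1 / (3 * K)) * (s : ℝ) ^ (-τ) ≤ |y - b / s| := by
  classical
  have hs0 : (0 : ℝ) < s := by exact_mod_cast hs
  have hex : ∃ n, s < q (n + 2) := ⟨s, lt_of_lt_of_le (by omega) (h.q_ge (s + 2))⟩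
  obtain ⟨n, hn1, hn2⟩ : ∃ n, q (n + 1) ≤ s ∧ s < q (n + 2) := by
    have h1 := Nat.find_spec hex
    refine ⟨Nat.find hex, ?_, h1⟩
    rcases hf : Nat.find hex with _ | m
    · rw [h.q1]; exact hs
    · have := Nat.find_min hex (m := m) (by omega)
      rw [show m + 1 + 1 = m + 2 from rfl]
      omega
  have hq1 : (0 : ℝ) < q (n + 1) := by exact_mod_cast h.q_pos n
  have hq2 : (0 : ℝ) < q (n + 2) := by exact_mod_cast h.q_pos (n + 1)
  have hq3 : (0 : ℝ) < q (n + 3) := by exact_mod_cast h.q_pos (n + 2)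
  have hsq : (s : ℝ) < q (n + 2) := by exact_mod_cast hn2
  have hne : p (n + 2) * s - b * q (n + 2) ≠ 0 := by
    intro h0
    have h1 : (q (n + 2) : ℤ) ∣ p (n + 2) * s := ⟨b, by linarith⟩
    have h2 : (q (n + 2) : ℤ) ∣ s := (h.coprime (n + 1)).symm.dvd_of_dvd_mul_left h1
    have h3 := Int.le_of_dvd (by exact_mod_cast hs) h2
    omega
  have habs : (1 : ℝ) ≤ |((p (n + 2) * s - b * q (n + 2) : ℤ) : ℝ)| := by
    have := Int.one_le_abs hne
    rw [← Int.cast_abs]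
    exact_mod_cast this
  have h1 : 1 / ((s : ℝ) * q (n + 2)) ≤ |r p q (n + 1) - b / s| := by
    have h2 : r p q (n + 1) - b / s = ((p (n + 2) * s - b * q (n + 2) : ℤ) : ℝ) / ((s : ℝ) * q (n + 2)) := by
      unfold r
      push_cast
      field_simp
    rw [h2, abs_div, abs_of_pos (mul_pos hs0 hq2)]
    gcongr
  have h2 : |y - r p q (n + 1)| ≤ (2 / 3) / ((s : ℝ) * q (n + 2)) := by
    refine (hy (n + 1)).trans ?_
    rw [div_le_div_iff₀ (by positivity) (by positivity)]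
    have h3 : (2 : ℝ) * q (n + 2) ≤ q (n + 3) := by exact_mod_cast h.q_double (n + 1)
    have h4 : (q (n + 2) : ℝ) * (2 * s) ≤ q (n + 2) * q (n + 3) := by
      apply mul_le_mul_of_nonneg_left _ hq2.le
      linarith
    have h5 : (q (n + 1 + 1) : ℝ) * q (n + 1 + 2) = q (n + 2) * q (n + 3) := rfl
    rw [h5]
    linarith
  have h3 : (1 / 3) / ((s : ℝ) * q (n + 2)) ≤ |y - b / s| := by
    have h4 : |r p q (n + 1) - b / s| ≤ |y - b / s| + |y - r p q (n + 1)| := by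
      have : r p q (n + 1) - b / s = (y - b / s) - (y - r p q (n + 1)) := by ring
      rw [this]
      exact abs_sub _ _
    have h5 : (1 / 3) / ((s : ℝ) * q (n + 2)) = 1 / ((s : ℝ) * q (n + 2)) - (2 / 3) / ((s : ℝ) * q (n + 2)) := by
      field_simp
      norm_num
    rw [h5]
    linarith
  refine le_trans ?_ h3
  have h6 : (q (n + 2) : ℝ) ≤ K * (s : ℝ) ^ (τ - 1) := by
    refine (hgr n).trans ?_
    apply mul_le_mul_of_nonneg_left _ hK.le
    apply Real.rpow_le_rpow hq1.le (by exact_mod_cast hn1) (by linarith)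
  have h7 : (s : ℝ) * q (n + 2) ≤ K * (s : ℝ) ^ τ := by
    calc (s : ℝ) * q (n + 2) ≤ s * (K * (s : ℝ) ^ (τ - 1)) := by gcongr
      _ = K * ((s : ℝ) ^ (1 : ℝ) * (s : ℝ) ^ (τ - 1)) := by rw [Real.rpow_one]; ring
      _ = K * (s : ℝ) ^ τ := by
        rw [← Real.rpow_add hs0]
        congr 2; ring
  rw [Real.rpow_neg hs0.le]
  have h8 : 1 / (3 * K) * ((s : ℝ) ^ τ)⁻¹ = (1 / 3) / (K * (s : ℝ) ^ τ) := by
    field_simp
  rw [h8]
  apply div_le_div_of_nonneg_left (by norm_num) (by positivity) h7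

/-- a large partial quotient gives a good approximation -/
theorem close (h : Cv a p q) {y : ℝ}
    (hy : ∀ n, |y - r p q n| ≤ (4 / 3) / ((q (n + 1) : ℝ) * q (n + 2)))
    {τ : ℝ} (n : ℕ) (hn : (q (n + 1) : ℝ) ^ (τ - 1) ≤ q (n + 2)) :
    |y - (p (n + 1) : ℝ) / q (n + 1)| ≤ (4 / 3) * (q (n + 1) : ℝ) ^ (-τ) := by
  have hq1 : (0 : ℝ) < q (n + 1) := by exact_mod_cast h.q_pos n
  have hq2 : (0 : ℝ) < q (n + 2) := by exact_mod_cast h.q_pos (n + 1)
  refine (hy n).trans ?_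
  rw [Real.rpow_neg hq1.le, ← div_eq_mul_inv]
  apply div_le_div_of_nonneg_left (by norm_num) (by positivity)
  calc (q (n + 1) : ℝ) ^ τ = (q (n + 1) : ℝ) ^ (1 : ℝ) * (q (n + 1) : ℝ) ^ (τ - 1) := by
        rw [← Real.rpow_add hq1]; congr 1; ring
    _ = q (n + 1) * (q (n + 1) : ℝ) ^ (τ - 1) := by rw [Real.rpow_one]
    _ ≤ q (n + 1) * q (n + 2) := by gcongr

/-- two numbers whose expansions first differ at step `n`, with partial quotients `2` and `6` -/
theorem sep {a' : ℕ → ℕ} {p' : ℕ → ℤ} {q' : ℕ → ℕ} (h : Cv a p q) (h' : Cv a' p' q') {y y' : ℝ}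
    (hy : ∀ n, |y - r p q n| ≤ (4 / 3) / ((q (n + 1) : ℝ) * q (n + 2)))
    (hy' : ∀ n, |y' - r p' q' n| ≤ (4 / 3) / ((q' (n + 1) : ℝ) * q' (n + 2)))
    (n : ℕ) (e1 : p (n + 1) = p' (n + 1)) (e2 : p n = p' n) (e3 : q (n + 1) = q' (n + 1))
    (e4 : q n = q' n) (e5 : a n = 2) (e6 : a' n = 6) :
    1 / (16 * (q (n + 1) : ℝ) ^ 2) ≤ |y - y'| := by
  have hq1 : (0 : ℝ) < q (n + 1) := by exact_mod_cast h.q_pos n
  have hqn : (q n : ℝ) ≤ q (n + 1) := by exact_mod_cast h.q_mono1 n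
  have hqn0 : (0 : ℝ) ≤ q n := by positivity
  have hQ : (q (n + 2) : ℝ) = 2 * q (n + 1) + q n := by
    rw [h.qs, e5]; push_cast; ring
  have hQ' : (q' (n + 2) : ℝ) = 6 * q (n + 1) + q n := by
    rw [h'.qs, e6, ← e3, ← e4]; push_cast; ring
  have hP : (p (n + 2) : ℝ) = 2 * p (n + 1) + p n := by
    rw [h.ps, e5]; push_cast; ring
  have hP' : (p' (n + 2) : ℝ) = 6 * p (n + 1) + p n := by
    rw [h'.ps, e6, ← e1, ← e2]; push_cast; ring
  set Q : ℝ := ((q (n + 2) : ℕ) : ℝ) with hQdef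
  set Q' : ℝ := ((q' (n + 2) : ℕ) : ℝ) with hQ'def
  have hQ0 : 0 < Q := by rw [hQ]; positivity
  have hQ'0 : 0 < Q' := by rw [hQ']; positivity
  have hdet : |((p (n + 1) : ℝ) * q n - p n * q (n + 1))| = 1 := by
    have h1 : ((p (n + 1) : ℝ) * q n - p n * q (n + 1)) = ((p (n + 1) * q n - p n * q (n + 1) : ℤ) : ℝ) := by
      push_cast; ring
    rw [h1]
    rcases h.det n with h2 | h2
    · rw [h2]; simp
    · rw [h2]; simp
  have h1 : |r p q (n + 1) - r p' q' (n + 1)| = 4 / (Q * Q') := by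
    have h2 : r p q (n + 1) - r p' q' (n + 1) =
        (-4 * ((p (n + 1) : ℝ) * q n - p n * q (n + 1))) / (Q * Q') := by
      unfold r
      rw [show n + 1 + 1 = n + 2 from rfl, hP, hP', ← hQdef, ← hQ'def]
      rw [div_sub_div _ _ hQ0.ne' hQ'0.ne']
      congr 1
      rw [hQ, hQ']
      ring
    rw [h2, abs_div, abs_mul, hdet, abs_of_pos (mul_pos hQ0 hQ'0)]
    norm_num
  have h2 : |y - r p q (n + 1)| ≤ (2 / 3) / (Q * Q) := by
    refine (hy (n + 1)).trans ?_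
    have h3 : (2 : ℝ) * q (n + 2) ≤ q (n + 3) := by exact_mod_cast h.q_double (n + 1)
    rw [← hQdef] at h3
    have h5 : (q (n + 1 + 1) : ℝ) * q (n + 1 + 2) = Q * q (n + 3) := rfl
    rw [h5, div_le_div_iff₀ (mul_pos hQ0 (by linarith)) (mul_pos hQ0 hQ0)]
    nlinarith
  have h3 : |y' - r p' q' (n + 1)| ≤ (2 / 3) / (Q' * Q') := by
    refine (hy' (n + 1)).trans ?_
    have h3 : (2 : ℝ) * q' (n + 2) ≤ q' (n + 3) := by exact_mod_cast h'.q_double (n + 1)
    rw [← hQ'def] at h3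
    have h5 : (q' (n + 1 + 1) : ℝ) * q' (n + 1 + 2) = Q' * q' (n + 3) := rfl
    rw [h5, div_le_div_iff₀ (mul_pos hQ'0 (by linarith)) (mul_pos hQ'0 hQ'0)]
    nlinarith
  have h4 : 4 / (Q * Q') ≤ |y - y'| + (2 / 3) / (Q * Q) + (2 / 3) / (Q' * Q') := by
    rw [← h1]
    have h5 : r p q (n + 1) - r p' q' (n + 1) =
      (y - y') - (y - r p q (n + 1)) + (y' - r p' q' (n + 1)) := by ring
    rw [h5]
    refine (abs_add_le _ _).trans ?_
    have := abs_sub (y - y') (y - r p q (n + 1))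
    linarith
  have hQQ' : Q ≤ Q' := by rw [hQ, hQ']; linarith
  have hQ'3 : Q' ≤ 3 * Q := by rw [hQ, hQ']; linarith
  have h5 : (2 / 3) / (Q * Q) ≤ 2 / (Q * Q') := by
    rw [div_le_div_iff₀ (by positivity) (by positivity)]
    nlinarith
  have h6 : (2 / 3) / (Q' * Q') ≤ (2 / 3) / (Q * Q') := by
    apply div_le_div_of_nonneg_left (by norm_num) (by positivity)
    gcongr
  have h7 : (4 / 3) / (Q * Q') ≤ |y - y'| := by
    have h8 : (4 / 3) / (Q * Q') = 4 / (Q * Q') - 2 / (Q * Q') - (2 / 3) / (Q * Q') := by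
      field_simp
      norm_num
    rw [h8]
    linarith
  refine le_trans ?_ h7
  rw [div_le_div_iff₀ (by positivity) (by positivity)]
  have h9 : Q * Q' ≤ (3 * q (n + 1)) * (7 * q (n + 1)) := by
    apply mul_le_mul _ _ hQ'0.le (by positivity)
    · rw [hQ]; linarith
    · rw [hQ']; linarith
  nlinarith

end Cv

end Pool.Agent.K4H3.WS
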