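import Mathlib
import Pool.Agent.K4H3.WS.CF

/-! A family of numbers of exact irrationality exponent `τ`, of positive Hausdorff dimension. -/

set_option autoImplicit false

namespace Pool.Agent.K4H3.WS

open Filter Topology

/-- special steps -/
def Sp (τ : ℝ) (n : ℕ) (u : ℝ) : Prop := Even n ∧ (τ - 1) * u + 3 ≤ 4 * (τ - 1) * (n + 1)

open Classical in
/-- upper bound for the binary logarithm of the denominators -/
noncomputable def U (τ : ℝ) : ℕ → ℝ
  | 0 => 0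
  | n + 1 => if Sp τ n (U τ n) then (τ - 1) * U τ n + 3 else U τ n + 3

/-- binary digits -/
noncomputable def bit (x : ℝ) (i : ℕ) : ℕ := ⌊x * 2 ^ (i + 1)⌋₊ % 2

open Classical in
/-- the partial quotient at step `n` when the current denominator is `Q` -/
noncomputable def A (τ x : ℝ) (n Q : ℕ) : ℕ :=
  if Sp τ n (U τ n) then 2 * (⌈(Q : ℝ) ^ (τ - 2)⌉₊ + 1) else if Odd n ∧ bit x (n / 2) = 1 then 6 else 2

/-- `((p (n + 1), p n), (q (n + 1), q n))` -/
noncomputable def st (τ x : ℝ) : ℕ → (ℤ × ℤ) × (ℕ × ℕ)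
  | 0 => ((0, 1), (1, 0))
  | n + 1 => ((A τ x n (st τ x n).2.1 * (st τ x n).1.1 + (st τ x n).1.2, (st τ x n).1.1),
      (A τ x n (st τ x n).2.1 * (st τ x n).2.1 + (st τ x n).2.2, (st τ x n).2.1))

noncomputable def pp (τ x : ℝ) (n : ℕ) : ℤ := (st τ x n).1.2
noncomputable def qq (τ x : ℝ) (n : ℕ) : ℕ := (st τ x n).2.2
noncomputable def aa (τ x : ℝ) (n : ℕ) : ℕ := A τ x n (st τ x n).2.1

lemma A_ge (τ x : ℝ) (n Q : ℕ) : 2 ≤ A τ x n Q := by
  unfold A
  split_ifs <;> omega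

lemma A_even (τ x : ℝ) (n Q : ℕ) : Even (A τ x n Q) := by
  unfold A
  split_ifs
  · exact ⟨_, two_mul _⟩
  · decide
  · decide

theorem cv (τ x : ℝ) : Cv (aa τ x) (pp τ x) (qq τ x) where
  q0 := rfl
  q1 := rfl
  p0 := rfl
  p1 := rfl
  qs := fun _ => rfl
  ps := fun _ => rfl
  a2 := fun _ => A_ge _ _ _ _

noncomputable def Y (τ x : ℝ) : ℝ := (cv τ x).exists_lim.choose

lemma Y_spec (τ x : ℝ) : ∀ n, |Y τ x - Cv.r (pp τ x) (qq τ x) n| ≤
    (4 / 3) / ((qq τ x (n + 1) : ℝ) * qq τ x (n + 2)) := (cv τ x).exists_lim.choose_spec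

lemma Y_mem (τ x : ℝ) : Y τ x ∈ Set.Ico (0 : ℝ) 1 := by
  have h := cv τ x
  have h1 := Y_spec τ x 1
  have hq2 : qq τ x 2 = aa τ x 0 := by
    rw [h.qs 0, h.q1, h.q0]; ring
  have hp2 : pp τ x 2 = 1 := by
    rw [h.ps 0, h.p1, h.p0]; ring
  have hr : Cv.r (pp τ x) (qq τ x) 1 = 1 / (aa τ x 0 : ℝ) := by
    unfold Cv.r
    rw [show 1 + 1 = 2 from rfl, hq2, hp2]
    simp
  have ha : (2 : ℝ) ≤ aa τ x 0 := by exact_mod_cast h.a2 0
  have hq3 : 2 * (aa τ x 0 : ℝ) ≤ qq τ x 3 := by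
    have := h.q_double 1
    rw [show 1 + 1 = 2 from rfl, hq2] at this
    exact_mod_cast this
  rw [hr, show 1 + 1 = 2 from rfl, show 1 + 2 = 3 from rfl, hq2] at h1
  set a : ℝ := (aa τ x 0 : ℝ) with hadef
  have ha0 : 0 < a := by linarith
  have h2 : (4 / 3) / (a * (qq τ x 3 : ℝ)) ≤ (1 / 3) / a := by
    rw [div_le_div_iff₀ (mul_pos ha0 (by linarith)) ha0]
    nlinarith
  have h3 := h1.trans h2
  rw [abs_le] at h3
  have h4 : 1 / a ≤ 1 / 2 := one_div_le_one_div_of_le (by norm_num) ha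
  have h5 : 0 < 1 / a := by positivity
  have h6 : (1 / 3) / a = (1 / a) / 3 := by ring
  rw [h6] at h3
  constructor
  · linarith [h3.1]
  · linarith [h3.2]

lemma q_parity (τ x : ℝ) (n : ℕ) : (Even n → Odd (qq τ x (n + 1))) ∧ (Odd n → Even (qq τ x (n + 1))) := by
  induction n using Nat.twoStepInduction with
  | zero => exact ⟨fun _ => by rw [(cv τ x).q1]; decide, fun h => absurd h (by decide)⟩
  | one =>
    refine ⟨fun h => absurd h (by decide), fun _ => ?_⟩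
    rw [show 1 + 1 = 0 + 2 from rfl, (cv τ x).qs 0, (cv τ x).q0, add_zero]
    exact (A_even _ _ _ _).mul_right _
  | more n ih1 _ =>
    have h1 : qq τ x (n + 2 + 1) = aa τ x (n + 1) * qq τ x (n + 2) + qq τ x (n + 1) := (cv τ x).qs (n + 1)
    have h2 : Even (aa τ x (n + 1) * qq τ x (n + 2)) := (A_even _ _ _ _).mul_right _
    rw [h1]
    constructor
    · intro he
      have : Even n := by
        rcases he with ⟨k, hk⟩
        exact ⟨k - 1, by omega⟩
      exact h2.add_odd (ih1.1 this)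
    · intro ho
      have : Odd n := by
        rcases ho with ⟨k, hk⟩
        exact ⟨k - 1, by omega⟩
      exact h2.add (ih1.2 this)

lemma step_le (τ x : ℝ) (n : ℕ) : (qq τ x (n + 2) : ℝ) ≤ ((aa τ x n : ℝ) + 1) * qq τ x (n + 1) := by
  rw [(cv τ x).qs n]
  have : (qq τ x n : ℝ) ≤ qq τ x (n + 1) := by exact_mod_cast (cv τ x).q_mono1 n
  push_cast
  linarith

lemma aa_nonspecial (τ x : ℝ) (n : ℕ) (h : ¬ Sp τ n (U τ n)) : (aa τ x n : ℝ) ≤ 6 := by
  unfold aa A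
  rw [if_neg h]
  split_ifs <;> norm_num

lemma q_one_le (τ x : ℝ) (n : ℕ) : (1 : ℝ) ≤ qq τ x (n + 1) := by
  exact_mod_cast (cv τ x).q_pos n

lemma aa_special (τ x : ℝ) (hτ : 2 < τ) (n : ℕ) (h : Sp τ n (U τ n)) :
    (qq τ x (n + 1) : ℝ) ^ (τ - 2) ≤ aa τ x n ∧
      (aa τ x n : ℝ) ≤ 6 * (qq τ x (n + 1) : ℝ) ^ (τ - 2) := by
  have h1 : aa τ x n = 2 * (⌈(qq τ x (n + 1) : ℝ) ^ (τ - 2)⌉₊ + 1) := by
    unfold aa A
    rw [if_pos h]
    rfl
  have hq := q_one_le τ x n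
  have hpow : 1 ≤ (qq τ x (n + 1) : ℝ) ^ (τ - 2) := Real.one_le_rpow hq (by linarith)
  have h2 := Nat.le_ceil ((qq τ x (n + 1) : ℝ) ^ (τ - 2))
  have h3 := Nat.ceil_lt_add_one (a := (qq τ x (n + 1) : ℝ) ^ (τ - 2)) (by linarith)
  rw [h1]
  push_cast
  constructor <;> linarith

lemma growth (τ x : ℝ) (hτ : 2 < τ) (n : ℕ) :
    (qq τ x (n + 2) : ℝ) ≤ 8 * (qq τ x (n + 1) : ℝ) ^ (τ - 1) := by
  have hq := q_one_le τ x n
  have hq0 : (0 : ℝ) < qq τ x (n + 1) := by linarith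
  have hpow : 1 ≤ (qq τ x (n + 1) : ℝ) ^ (τ - 2) := Real.one_le_rpow hq (by linarith)
  have hsplit : (qq τ x (n + 1) : ℝ) ^ (τ - 1) =
      (qq τ x (n + 1) : ℝ) ^ (τ - 2) * qq τ x (n + 1) := by
    calc (qq τ x (n + 1) : ℝ) ^ (τ - 1) = (qq τ x (n + 1) : ℝ) ^ (τ - 2 + 1) := by congr 1; ring
      _ = _ := by rw [Real.rpow_add hq0, Real.rpow_one]
  have ha : (aa τ x n : ℝ) + 1 ≤ 8 * (qq τ x (n + 1) : ℝ) ^ (τ - 2) := by
    by_cases h : Sp τ n (U τ n)
    · have := (aa_special τ x hτ n h).2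
      linarith
    · have := aa_nonspecial τ x n h
      linarith
  refine (step_le τ x n).trans ?_
  rw [hsplit, ← mul_assoc]
  exact mul_le_mul_of_nonneg_right ha hq0.le

lemma U_nonneg (τ : ℝ) (hτ : 2 < τ) (n : ℕ) : 0 ≤ U τ n := by
  induction n with
  | zero => simp [U]
  | succ n ih =>
    rw [U]
    have : 0 ≤ (τ - 1) * U τ n := mul_nonneg (by linarith) ih
    split_ifs <;> linarith

lemma U_le (τ : ℝ) (hτ : 2 < τ) (n : ℕ) : U τ n ≤ 4 * (τ - 1) * n := by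
  induction n with
  | zero => simp [U]
  | succ n ih =>
    rw [U]
    push_cast
    split_ifs with h
    · exact h.2
    · linarith

lemma q_le (τ x : ℝ) (hτ : 2 < τ) (n : ℕ) : (qq τ x (n + 1) : ℝ) ≤ 2 ^ (U τ n) := by
  induction n with
  | zero => simp [U, (cv τ x).q1]
  | succ n ih =>
    have hq0 : (0 : ℝ) ≤ qq τ x (n + 1) := by positivity
    rw [U]
    split_ifs with h
    · rw [Real.rpow_add (by norm_num), mul_comm (τ - 1), Real.rpow_mul (by norm_num)]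
      refine (growth τ x hτ n).trans ?_
      have h1 : (qq τ x (n + 1) : ℝ) ^ (τ - 1) ≤ ((2 : ℝ) ^ U τ n) ^ (τ - 1) :=
        Real.rpow_le_rpow hq0 ih (by linarith)
      have h2 : (2 : ℝ) ^ (3 : ℝ) = 8 := by norm_num
      rw [h2, mul_comm]
      linarith
    · rw [Real.rpow_add (by norm_num)]
      refine (step_le τ x n).trans ?_
      have h1 := aa_nonspecial τ x n h
      have h2 : (2 : ℝ) ^ (3 : ℝ) = 8 := by norm_num
      rw [h2, mul_comm]
      apply mul_le_mul ih (by linarith) (by positivity) (by positivity)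

lemma exists_special (τ : ℝ) (hτ : 2 < τ) (N : ℕ) : ∃ n, N ≤ n ∧ Sp τ n (U τ n) := by
  by_contra hcon
  push Not at hcon
  have hU : ∀ k : ℕ, U τ (N + k) = U τ N + 3 * k := by
    intro k
    induction k with
    | zero => simp
    | succ k ih =>
      rw [← add_assoc, U, if_neg (hcon (N + k) (by omega)), ih]
      push_cast
      ring
  set k : ℕ := N + 2 * ⌈U τ N⌉₊ with hk
  have h1 : Even (N + k) := ⟨N + ⌈U τ N⌉₊, by omega⟩
  apply hcon (N + k) (by omega)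
  refine ⟨h1, ?_⟩
  rw [hU]
  have h2 := Nat.le_ceil (U τ N)
  have h3 : (k : ℝ) = N + 2 * ⌈U τ N⌉₊ := by rw [hk]; push_cast; ring
  have h4 : 0 ≤ U τ N := U_nonneg τ hτ N
  have h5 : U τ N ≤ k := by
    rw [h3]
    have : (0 : ℝ) ≤ N := by positivity
    linarith
  have h6 : U τ N + 3 * k + 3 ≤ 4 * (N + k + 1 : ℝ) := by
    have : (0 : ℝ) ≤ N := by positivity
    linarith
  push_cast
  have h7 : (τ - 1) * (U τ N + 3 * k) + 3 ≤ (τ - 1) * (U τ N + 3 * k + 3) := by nlinarith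
  calc (τ - 1) * (U τ N + 3 * k) + 3 ≤ (τ - 1) * (U τ N + 3 * k + 3) := h7
    _ ≤ (τ - 1) * (4 * (N + k + 1 : ℝ)) := by
      apply mul_le_mul_of_nonneg_left h6; linarith
    _ = 4 * (τ - 1) * (N + k + 1) := by ring

/-- all rationals are at distance at least `c s ^ (-τ)` -/
theorem Y_far (τ x : ℝ) (hτ : 2 < τ) (b : ℤ) (s : ℕ) (hs : 1 ≤ s) :
    (1 / (3 * 8)) * (s : ℝ) ^ (-τ) ≤ |Y τ x - b / s| :=
  (cv τ x).far (Y_spec τ x) (by norm_num) (by linarith) (growth τ x hτ) b s hs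

/-- good approximations with odd denominators -/
theorem Y_close (τ x : ℝ) (hτ : 2 < τ) (M : ℕ) : ∃ q : ℕ, M ≤ q ∧ Odd q ∧ ∃ a : ℤ,
    IsCoprime a (q : ℤ) ∧ |Y τ x - a / q| ≤ (4 / 3) * (q : ℝ) ^ (-τ) := by
  obtain ⟨n, hn, hsp⟩ := exists_special τ hτ M
  refine ⟨qq τ x (n + 1), ?_, (q_parity τ x n).1 hsp.1, pp τ x (n + 1), (cv τ x).coprime n, ?_⟩
  · have := (cv τ x).q_ge (n + 1)
    omega
  · apply (cv τ x).close (Y_spec τ x) n
    have hq := q_one_le τ x n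
    have hq0 : (0 : ℝ) < qq τ x (n + 1) := by linarith
    have h1 := (aa_special τ x hτ n hsp).1
    have hsplit : (qq τ x (n + 1) : ℝ) ^ (τ - 1) =
        (qq τ x (n + 1) : ℝ) ^ (τ - 2) * qq τ x (n + 1) := by
      calc (qq τ x (n + 1) : ℝ) ^ (τ - 1) = (qq τ x (n + 1) : ℝ) ^ (τ - 2 + 1) := by congr 1; ring
        _ = _ := by rw [Real.rpow_add hq0, Real.rpow_one]
    rw [hsplit, (cv τ x).qs n]
    push_cast
    have h2 : (qq τ x (n + 1) : ℝ) ^ (τ - 2) * qq τ x (n + 1) ≤ aa τ x n * qq τ x (n + 1) :=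
      mul_le_mul_of_nonneg_right h1 hq0.le
    have h3 : (0 : ℝ) ≤ qq τ x n := by positivity
    linarith

/-! ### The dimension -/

lemma floor_eq (x x' : ℝ) (hx : x ∈ Set.Ico (0 : ℝ) 1) (hx' : x' ∈ Set.Ico (0 : ℝ) 1) (m : ℕ)
    (h : ∀ i < m, bit x i = bit x' i) : ⌊x * 2 ^ m⌋₊ = ⌊x' * 2 ^ m⌋₊ := by
  induction m with
  | zero =>
    rw [pow_zero, mul_one, mul_one, Nat.floor_eq_zero.2 hx.2, Nat.floor_eq_zero.2 hx'.2]
  | succ m ih =>
    have h1 := ih (fun i hi => h i (by omega))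
    have h2 := h m (by omega)
    unfold bit at h2
    have key : ∀ z : ℝ, ⌊z * 2 ^ (m + 1)⌋₊ / 2 = ⌊z * 2 ^ m⌋₊ := by
      intro z
      have := Nat.floor_div_natCast (z * 2 ^ (m + 1)) 2
      rw [← this]
      congr 1
      push_cast
      rw [pow_succ]
      ring
    have h3 := key x
    have h4 := key x'
    omega

lemma bits_close (x x' : ℝ) (hx : x ∈ Set.Ico (0 : ℝ) 1) (hx' : x' ∈ Set.Ico (0 : ℝ) 1) (m : ℕ)
    (h : ∀ i < m, bit x i = bit x' i) : |x - x'| ≤ 1 / 2 ^ m := by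
  have h1 := floor_eq x x' hx hx' m h
  have h2 : (0 : ℝ) < 2 ^ m := by positivity
  have a1 := Nat.floor_le (a := x * 2 ^ m) (mul_nonneg hx.1 h2.le)
  have a2 := Nat.lt_floor_add_one (x * 2 ^ m)
  have b1 := Nat.floor_le (a := x' * 2 ^ m) (mul_nonneg hx'.1 h2.le)
  have b2 := Nat.lt_floor_add_one (x' * 2 ^ m)
  rw [← h1] at b1 b2
  rw [le_div_iff₀ h2]
  have h3 : |x - x'| * 2 ^ m = |x * 2 ^ m - x' * 2 ^ m| := by
    rw [← sub_mul, abs_mul, abs_of_pos h2]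
  rw [h3, abs_le]
  constructor <;> linarith

lemma st_congr (τ x x' : ℝ) (n : ℕ) (h : ∀ i, 2 * i + 1 < n → bit x i = bit x' i) :
    st τ x n = st τ x' n := by
  induction n with
  | zero => rfl
  | succ n ih =>
    have h1 := ih (fun i hi => h i (by omega))
    have h2 : ∀ Q, A τ x n Q = A τ x' n Q := by
      intro Q
      unfold A
      by_cases ho : Odd n
      · obtain ⟨k, hk⟩ := ho
        have h3 : n / 2 = k := by omega
        rw [h3, h k (by omega)]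
      · simp [ho]
    rw [st, st, h1, h2]

lemma sep_bits (τ x x' : ℝ) (m : ℕ) (h : ∀ i < m, bit x i = bit x' i)
    (h1 : bit x m = 0) (h2 : bit x' m = 1) :
    1 / (16 * (qq τ x (2 * m + 2) : ℝ) ^ 2) ≤ |Y τ x - Y τ x'| := by
  have hst : st τ x (2 * m + 1) = st τ x' (2 * m + 1) := st_congr τ x x' _ (fun i hi => h i (by omega))
  have hns : ∀ u, ¬ Sp τ (2 * m + 1) u := by
    intro u hu
    have := hu.1
    rw [Nat.even_iff] at this
    omega
  have hodd : Odd (2 * m + 1) := ⟨m, rfl⟩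
  have hdiv : (2 * m + 1) / 2 = m := by omega
  have e5 : aa τ x (2 * m + 1) = 2 := by
    unfold aa A
    rw [if_neg (hns _), hdiv, h1]
    simp
  have e6 : aa τ x' (2 * m + 1) = 6 := by
    unfold aa A
    rw [if_neg (hns _), hdiv, h2, if_pos ⟨hodd, rfl⟩]
  have e1 : pp τ x (2 * m + 1 + 1) = pp τ x' (2 * m + 1 + 1) := by
    change (st τ x (2 * m + 1)).1.1 = (st τ x' (2 * m + 1)).1.1
    rw [hst]
  have e2 : pp τ x (2 * m + 1) = pp τ x' (2 * m + 1) := by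
    change (st τ x (2 * m + 1)).1.2 = (st τ x' (2 * m + 1)).1.2
    rw [hst]
  have e3 : qq τ x (2 * m + 1 + 1) = qq τ x' (2 * m + 1 + 1) := by
    change (st τ x (2 * m + 1)).2.1 = (st τ x' (2 * m + 1)).2.1
    rw [hst]
  have e4 : qq τ x (2 * m + 1) = qq τ x' (2 * m + 1) := by
    change (st τ x (2 * m + 1)).2.2 = (st τ x' (2 * m + 1)).2.2
    rw [hst]
  exact Cv.sep (cv τ x) (cv τ x') (Y_spec τ x) (Y_spec τ x') (2 * m + 1) e1 e2 e3 e4 e5 e6

lemma holder (τ x x' : ℝ) (hτ : 2 < τ) (hx : x ∈ Set.Ico (0 : ℝ) 1) (hx' : x' ∈ Set.Ico (0 : ℝ) 1) :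
    |x - x'| ≤ 4 * |Y τ x - Y τ x'| ^ (1 / (16 * (τ - 1))) := by
  classical
  by_cases hne : x = x'
  · subst hne
    simp
    positivity
  have hex : ∃ i, bit x i ≠ bit x' i := by
    by_contra hcon
    push Not at hcon
    have h1 : ∀ m : ℕ, |x - x'| ≤ (1 / 2) ^ m := by
      intro m
      have := bits_close x x' hx hx' m (fun i _ => hcon i)
      rwa [one_div_pow]
    have h2 : |x - x'| ≤ 0 := ge_of_tendsto' (tendsto_pow_atTop_nhds_zero_of_lt_one
      (by norm_num : (0:ℝ) ≤ 1 / 2) (by norm_num)) h1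
    have h3 : x - x' = 0 := abs_eq_zero.1 (le_antisymm h2 (abs_nonneg _))
    exact hne (by linarith)
  set m := Nat.find hex with hm
  have hmspec : bit x m ≠ bit x' m := Nat.find_spec hex
  have hmin : ∀ i < m, bit x i = bit x' i := by
    intro i hi
    by_contra h
    exact Nat.find_min hex hi h
  have hbd : |x - x'| ≤ 1 / 2 ^ m := bits_close x x' hx hx' m hmin
  have hb1 : bit x m < 2 := Nat.mod_lt _ (by norm_num)
  have hb2 : bit x' m < 2 := Nat.mod_lt _ (by norm_num)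
  set D : ℝ := 4 * (τ - 1) with hD
  have hD4 : 4 < D := by rw [hD]; linarith
  have hsep : 1 / (16 * ((2 : ℝ) ^ (D * (2 * m + 1))) ^ 2) ≤ |Y τ x - Y τ x'| := by
    have hqb : ∀ z : ℝ, (qq τ z (2 * m + 2) : ℝ) ≤ (2 : ℝ) ^ (D * (2 * m + 1)) := by
      intro z
      refine (q_le τ z hτ (2 * m + 1)).trans ?_
      apply Real.rpow_le_rpow_of_exponent_le (by norm_num)
      have := U_le τ hτ (2 * m + 1)
      push_cast at this
      exact this
    have hq1 : ∀ z : ℝ, (0 : ℝ) < qq τ z (2 * m + 2) := by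
      intro z
      have := q_one_le τ z (2 * m + 1)
      linarith
    have hcomp : ∀ z : ℝ, 1 / (16 * ((2 : ℝ) ^ (D * (2 * m + 1))) ^ 2) ≤
        1 / (16 * (qq τ z (2 * m + 2) : ℝ) ^ 2) := by
      intro z
      have h1 := hq1 z
      have h2 := hqb z
      apply one_div_le_one_div_of_le (by positivity)
      gcongr
    rcases Nat.lt_or_ge (bit x m) 1 with h1 | h1
    · have h2 : bit x m = 0 := by omega
      have h3 : bit x' m = 1 := by omega
      exact (hcomp x).trans (sep_bits τ x x' m hmin h2 h3)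
    · have h2 : bit x m = 1 := by omega
      have h3 : bit x' m = 0 := by omega
      rw [abs_sub_comm]
      exact (hcomp x').trans (sep_bits τ x' x m (fun i hi => (hmin i hi).symm) h3 h2)
  refine hbd.trans ?_
  have hexp : 1 / (16 * (τ - 1)) = 1 / (4 * D) := by rw [hD]; ring
  rw [hexp]
  have h1 : (1 / (16 * ((2 : ℝ) ^ (D * (2 * m + 1))) ^ 2)) ^ (1 / (4 * D)) ≤
      |Y τ x - Y τ x'| ^ (1 / (4 * D)) := by
    apply Real.rpow_le_rpow (by positivity) hsep (by positivity)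
  refine le_trans ?_ (mul_le_mul_of_nonneg_left h1 (by norm_num))
  have h2 : (1 / (16 * ((2 : ℝ) ^ (D * (2 * m + 1))) ^ 2)) = (2 : ℝ) ^ (-(4 + 2 * D * (2 * m + 1))) := by
    rw [Real.rpow_neg (by norm_num), Real.rpow_add (by norm_num), one_div]
    congr 2
    · norm_num
    · rw [← Real.rpow_natCast, ← Real.rpow_mul (by norm_num)]
      congr 1
      push_cast
      ring
  rw [h2, ← Real.rpow_mul (by norm_num)]
  have h5 : -(4 + 2 * D * (2 * m + 1)) * (1 / (4 * D)) = -(1 / D) - 1 / 2 - m := by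
    field_simp
    ring
  rw [h5]
  have h3 : (4 : ℝ) = (2 : ℝ) ^ (2 : ℝ) := by norm_num
  have h4 : (1 : ℝ) / 2 ^ m = (2 : ℝ) ^ (-(m : ℝ)) := by
    rw [Real.rpow_neg (by norm_num), Real.rpow_natCast, one_div]
  rw [h4, h3, ← Real.rpow_add (by norm_num)]
  apply Real.rpow_le_rpow_of_exponent_le (by norm_num)
  have h6 : 1 / D ≤ 1 := by
    rw [div_le_one (by linarith)]
    linarith
  linarith

theorem dim_pos (τ : ℝ) (hτ : 2 < τ) : 0 < dimH (Y τ '' Set.Ico (0 : ℝ) 1) := by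
  classical
  have hσR : (0 : ℝ) < 1 / (16 * (τ - 1)) := by
    apply one_div_pos.2
    linarith
  set σ : NNReal := ⟨1 / (16 * (τ - 1)), hσR.le⟩ with hσdef
  have hσ : 0 < σ := hσR
  set F : ℝ → ℝ := Function.invFunOn (Y τ) (Set.Ico (0 : ℝ) 1) with hF
  have hinj : Set.InjOn (Y τ) (Set.Ico (0 : ℝ) 1) := by
    intro t ht s hs h
    have h1 := holder τ t s hτ ht hs
    rw [h, sub_self, abs_zero, Real.zero_rpow hσR.ne', mul_zero] at h1
    have h7 : t - s = 0 := abs_eq_zero.mp (le_antisymm h1 (abs_nonneg _))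
    linarith
  have hFG : ∀ t ∈ Set.Ico (0 : ℝ) 1, F (Y τ t) = t := fun t ht => hinj.leftInvOn_invFunOn ht
  have hhol : HolderOnWith 4 σ F (Y τ '' Set.Ico (0 : ℝ) 1) := by
    rintro _ ⟨t, ht, rfl⟩ _ ⟨s, hs, rfl⟩
    rw [hFG t ht, hFG s hs]
    have h1 := holder τ t s hτ ht hs
    rw [edist_dist, edist_dist, Real.dist_eq, Real.dist_eq]
    have h2 : ENNReal.ofReal |t - s| ≤ ENNReal.ofReal (4 * |Y τ t - Y τ s| ^ (σ : ℝ)) :=
      ENNReal.ofReal_le_ofReal h1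
    refine h2.trans (le_of_eq ?_)
    rw [ENNReal.ofReal_mul (by positivity), ENNReal.ofReal_rpow_of_nonneg (abs_nonneg _) (show (0 : ℝ) ≤ (σ : ℝ) from σ.2)]
    congr 1
    norm_num
  have himg : F '' (Y τ '' Set.Ico (0 : ℝ) 1) = Set.Ico (0 : ℝ) 1 := by
    rw [Set.image_image]
    ext t
    constructor
    · rintro ⟨s, hs, rfl⟩
      change F (Y τ s) ∈ Set.Ico (0 : ℝ) 1
      rw [hFG s hs]; exact hs
    · intro ht
      exact ⟨t, ht, hFG t ht⟩
  have h1 := hhol.dimH_image_le hσ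
  rw [himg] at h1
  have h2 : dimH (Set.Ico (0 : ℝ) 1) = 1 := by
    have := Real.dimH_of_nonempty_interior (s := Set.Ico (0 : ℝ) 1) (by
      rw [interior_Ico]
      exact ⟨1 / 2, by norm_num, by norm_num⟩)
    simpa using this
  rw [h2] at h1
  rw [ENNReal.le_div_iff_mul_le (Or.inl (by exact_mod_cast hσ.ne')) (Or.inl ENNReal.coe_ne_top), one_mul] at h1
  exact lt_of_lt_of_le (by exact_mod_cast hσ) h1

end Pool.Agent.K4H3.WS
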