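import Mathlib
import Pool.Agent.H520R3.Weyl

/-! Weyl's inequality for quadratic exponential sums. -/

set_option autoImplicit false

namespace Pool.Agent.K4H3.WS

open Finset Pool.Agent.H520R3

/-- distance to the nearest integer -/
noncomputable def nd (x : ℝ) : ℝ := |x - round x|

/-- bound for a geometric sum of at most `N` terms -/
noncomputable def W (N : ℕ) (x : ℝ) : ℝ := if nd x * (2 * N) ≤ 1 then (N : ℝ) else 1 / (2 * nd x)

lemma nd_nonneg (x : ℝ) : 0 ≤ nd x := abs_nonneg _

lemma nd_le (x : ℝ) (n : ℤ) : nd x ≤ |x - n| := round_le x n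

lemma W_nonneg (N : ℕ) (x : ℝ) : 0 ≤ W N x := by
  unfold W
  have := nd_nonneg x
  split_ifs <;> positivity

lemma W_le (N : ℕ) (x : ℝ) : W N x ≤ N := by
  unfold W
  split_ifs with h
  · exact le_rfl
  · push Not at h
    have h0 : 0 < nd x := by
      rcases (nd_nonneg x).lt_or_eq with h1 | h1
      · exact h1
      · rw [← h1] at h; simp at h; linarith
    rw [div_le_iff₀ (by positivity)]
    linarith

lemma W_le_of (N : ℕ) (x κ : ℝ) (hκ : 0 < κ) (h : κ ≤ nd x) : W N x ≤ 1 / (2 * κ) := by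
  have h0 : 0 < nd x := lt_of_lt_of_le hκ h
  have h1 : 1 / (2 * nd x) ≤ 1 / (2 * κ) := one_div_le_one_div_of_le (by positivity) (by linarith)
  unfold W
  split_ifs with h2
  · refine le_trans ?_ h1
    rw [le_div_iff₀ (by positivity)]
    linarith
  · exact h1

lemma inner_le (N m : ℕ) (hm : m ≤ N) (x : ℝ) : ‖∑ j ∈ range m, e (x * j)‖ ≤ W N x := by
  unfold W
  split_ifs with h
  · refine le_trans (norm_sum_le _ _) ?_
    rw [sum_congr rfl (fun j _ => norm_e _)]
    simp only [sum_const, card_range, nsmul_eq_mul, mul_one]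
    exact_mod_cast hm
  · push Not at h
    have h0 : 0 < nd x := by
      rcases (nd_nonneg x).lt_or_eq with h1 | h1
      · exact h1
      · rw [← h1] at h; simp at h; linarith
    have h2 : 4 * nd x ≤ ‖e x - 1‖ := four_mul_le x
    have h3 : e x ≠ 1 := by
      intro h
      rw [h, sub_self, norm_zero] at h2
      linarith
    have h4 : ∑ j ∈ range m, e (x * j) = ∑ j ∈ range m, e x ^ j := by
      apply sum_congr rfl
      intro j _
      exact e_mul_nat x j
    rw [h4, geom_sum_eq h3, norm_div]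
    have h5 : ‖e x ^ m - 1‖ ≤ 2 := by
      refine le_trans (norm_sub_le _ _) ?_
      rw [norm_pow, norm_e, one_pow, norm_one]
      norm_num
    have h6 : 0 < ‖e x - 1‖ := norm_pos_iff.2 (sub_ne_zero.2 h3)
    rw [div_le_div_iff₀ h6 (by positivity)]
    nlinarith [norm_nonneg (e x ^ m - 1)]

/-- bound for the term with residue `r` -/
noncomputable def gg (N q : ℕ) (r : ℕ) : ℝ :=
  (if r < 3 ∨ q < r + 3 then (N : ℝ) else 0) + (if 3 ≤ r then (q : ℝ) / (2 * ((r : ℝ) - 2)) else 0) +
    (if r + 3 ≤ q then (q : ℝ) / (2 * ((q : ℝ) - r - 2)) else 0)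

lemma gg_A_nonneg (q r : ℕ) : 0 ≤ (if 3 ≤ r then (q : ℝ) / (2 * ((r : ℝ) - 2)) else 0) := by
  split_ifs with h
  · have : (3 : ℝ) ≤ r := by exact_mod_cast h
    apply div_nonneg (by positivity)
    linarith
  · exact le_rfl

lemma gg_B_nonneg (q r : ℕ) : 0 ≤ (if r + 3 ≤ q then (q : ℝ) / (2 * ((q : ℝ) - r - 2)) else 0) := by
  split_ifs with h
  · have : (r : ℝ) + 3 ≤ q := by exact_mod_cast h
    apply div_nonneg (by positivity)
    linarith
  · exact le_rfl

lemma gg_C_nonneg (N q r : ℕ) : 0 ≤ (if r < 3 ∨ q < r + 3 then (N : ℝ) else 0) := by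
  split_ifs <;> positivity

lemma harm_le (n : ℕ) : ∑ j ∈ range n, (1 : ℝ) / ((j : ℝ) + 1) ≤ 1 + Real.log n := by
  have h := harmonic_le_one_add_log n
  refine le_trans (le_of_eq ?_) h
  unfold harmonic
  push_cast
  apply sum_congr rfl
  intro j _
  rw [one_div]

lemma sum_A (q : ℕ) (hq : 1 ≤ q) : ∑ r ∈ range q, (if 3 ≤ r then (q : ℝ) / (2 * ((r : ℝ) - 2)) else 0) ≤
    q / 2 * (1 + Real.log q) := by
  have h1 : ∑ r ∈ range q, (if 3 ≤ r then (q : ℝ) / (2 * ((r : ℝ) - 2)) else 0) ≤
      ∑ r ∈ range (q + 3), (if 3 ≤ r then (q : ℝ) / (2 * ((r : ℝ) - 2)) else 0) := by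
    apply sum_le_sum_of_subset_of_nonneg
    · intro x hx
      rw [mem_range] at *
      omega
    · intro i _ _
      exact gg_A_nonneg q i
  refine le_trans h1 ?_
  rw [add_comm q 3, sum_range_add]
  have h2 : ∑ x ∈ range 3, (if 3 ≤ x then (q : ℝ) / (2 * ((x : ℝ) - 2)) else 0) = 0 := by
    apply sum_eq_zero
    intro x hx
    rw [mem_range] at hx
    rw [if_neg (by omega)]
  rw [h2, zero_add]
  have h3 : ∀ x ∈ range q, (if 3 ≤ 3 + x then (q : ℝ) / (2 * (((3 + x : ℕ) : ℝ) - 2)) else 0) =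
      q / 2 * (1 / ((x : ℝ) + 1)) := by
    intro x _
    rw [if_pos (by omega)]
    push_cast
    have : (3 : ℝ) + x - 2 = x + 1 := by ring
    rw [this]
    have : (x : ℝ) + 1 ≠ 0 := by positivity
    field_simp
  rw [sum_congr rfl h3, ← mul_sum]
  exact mul_le_mul_of_nonneg_left (harm_le q) (by positivity)

lemma sum_B (q : ℕ) (hq : 1 ≤ q) :
    ∑ r ∈ range q, (if r + 3 ≤ q then (q : ℝ) / (2 * ((q : ℝ) - r - 2)) else 0) ≤
    q / 2 * (1 + Real.log q) := by
  rw [← sum_range_reflect]
  have h1 : ∀ r ∈ range q, (if q - 1 - r + 3 ≤ q then (q : ℝ) / (2 * ((q : ℝ) - ((q - 1 - r : ℕ) : ℝ) - 2)) else 0)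
      ≤ q / 2 * (if 2 ≤ r then 1 / ((r : ℝ) - 1) else 0) := by
    intro r hr
    rw [mem_range] at hr
    split_ifs with h2 h3 h3
    · have : ((q - 1 - r : ℕ) : ℝ) = q - 1 - r := by
        rw [Nat.cast_sub (by omega), Nat.cast_sub (by omega)]
        push_cast; ring
      rw [this]
      have h4 : (2 : ℝ) ≤ r := by exact_mod_cast h3
      have h5 : (q : ℝ) - (q - 1 - r) - 2 = r - 1 := by ring
      rw [h5]
      apply le_of_eq
      have : (r : ℝ) - 1 ≠ 0 := by linarith
      field_simp
    · omega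
    · have h4 : (2 : ℝ) ≤ r := by exact_mod_cast h3
      apply mul_nonneg (by positivity)
      apply div_nonneg (by norm_num)
      linarith
    · simp
  refine le_trans (sum_le_sum h1) ?_
  rw [← mul_sum]
  apply mul_le_mul_of_nonneg_left _ (by positivity)
  have h2 : ∑ r ∈ range q, (if 2 ≤ r then 1 / ((r : ℝ) - 1) else 0) ≤
      ∑ r ∈ range (2 + q), (if 2 ≤ r then 1 / ((r : ℝ) - 1) else 0) := by
    apply sum_le_sum_of_subset_of_nonneg
    · intro x hx
      rw [mem_range] at *
      omega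
    · intro i _ _
      split_ifs with h
      · have h4 : (2 : ℝ) ≤ i := by exact_mod_cast h
        apply div_nonneg (by norm_num)
        linarith
      · exact le_rfl
  refine le_trans h2 ?_
  rw [sum_range_add]
  have h3 : ∑ x ∈ range 2, (if 2 ≤ x then 1 / ((x : ℝ) - 1) else 0) = 0 := by
    apply sum_eq_zero
    intro x hx
    rw [mem_range] at hx
    rw [if_neg (by omega)]
  rw [h3, zero_add]
  have h4 : ∀ x ∈ range q, (if 2 ≤ 2 + x then 1 / (((2 + x : ℕ) : ℝ) - 1) else 0) =
      1 / ((x : ℝ) + 1) := by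
    intro x _
    rw [if_pos (by omega)]
    push_cast
    congr 1
    ring
  rw [sum_congr rfl h4]
  exact harm_le q

lemma sum_C (N q : ℕ) : ∑ r ∈ range q, (if r < 3 ∨ q < r + 3 then (N : ℝ) else 0) ≤ 5 * N := by
  rw [← sum_filter, sum_const, nsmul_eq_mul]
  apply mul_le_mul_of_nonneg_right _ (Nat.cast_nonneg _)
  have h : (range q).filter (fun r => r < 3 ∨ q < r + 3) ⊆ range 3 ∪ {q - 1, q - 2} := by
    intro r hr
    rw [mem_filter, mem_range] at hr
    rw [mem_union, mem_range, mem_insert, mem_singleton]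
    omega
  have h2 := card_le_card h
  have h3 : (range 3 ∪ {q - 1, q - 2} : Finset ℕ).card ≤ 5 := by
    refine le_trans (card_union_le _ _) ?_
    have : ({q - 1, q - 2} : Finset ℕ).card ≤ 2 := card_le_two
    rw [card_range]
    omega
  exact_mod_cast h2.trans h3

lemma sum_gg (N q : ℕ) (hq : 1 ≤ q) : ∑ r ∈ range q, gg N q r ≤ 5 * N + q * (1 + Real.log q) := by
  unfold gg
  rw [sum_add_distrib, sum_add_distrib]
  have h1 := sum_A q hq
  have h2 := sum_B q hq
  have h3 := sum_C N q
  linarith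

/-- the residue of `c + k a` modulo `q` -/
def rs (c a : ℤ) (q k : ℕ) : ℕ := ((c + k * a) % q).toNat

lemma rs_lt (c a : ℤ) (q k : ℕ) (hq : 1 ≤ q) : rs c a q k < q := by
  unfold rs
  have h1 : (c + k * a) % (q : ℤ) < q := Int.emod_lt_of_pos _ (by exact_mod_cast hq)
  have h2 : 0 ≤ (c + k * a) % (q : ℤ) := Int.emod_nonneg _ (by have : (0:ℤ) < q := by exact_mod_cast hq
                                                               exact this.ne')
  omega

lemma rs_cast (c a : ℤ) (q k : ℕ) (hq : 1 ≤ q) : ∃ m : ℤ, c + k * a = q * m + rs c a q k := by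
  unfold rs
  have h2 : 0 ≤ (c + k * a) % (q : ℤ) := Int.emod_nonneg _ (by have : (0:ℤ) < q := by exact_mod_cast hq
                                                               exact this.ne')
  refine ⟨(c + k * a) / q, ?_⟩
  rw [Int.toNat_of_nonneg h2]
  exact (Int.mul_ediv_add_emod _ _).symm

lemma rs_inj (c a : ℤ) (q : ℕ) (hq : 1 ≤ q) (hco : IsCoprime a (q : ℤ)) :
    Set.InjOn (rs c a q) (range q : Set ℕ) := by
  intro k hk l hl h
  rw [mem_coe, mem_range] at hk hl
  obtain ⟨m, hm⟩ := rs_cast c a q k hq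
  obtain ⟨m', hm'⟩ := rs_cast c a q l hq
  rw [h] at hm
  have h1 : (q : ℤ) ∣ ((k : ℤ) - l) * a := ⟨m - m', by linear_combination hm - hm'⟩
  have h2 : (q : ℤ) ∣ (k : ℤ) - l := hco.symm.dvd_of_dvd_mul_right h1
  have h3 : ((k : ℤ) - l) = 0 := by
    apply Int.eq_zero_of_abs_lt_dvd h2
    rw [abs_lt]
    constructor <;> omega
  omega

lemma block (N q : ℕ) (hq : 1 ≤ q) (a : ℤ) (θ : ℝ) (hco : IsCoprime a (q : ℤ))
    (hθ : |θ - a / q| ≤ 1 / (q : ℝ) ^ 2) (H0 : ℕ) :
    ∑ k ∈ range q, W N (((H0 + k : ℕ) : ℝ) * θ) ≤ 5 * N + q * (1 + Real.log q) := by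
  have hq0 : (0 : ℝ) < q := by exact_mod_cast hq
  set c : ℤ := ⌊(q : ℝ) * H0 * θ⌋ with hc
  have hc1 : (c : ℝ) ≤ q * H0 * θ := Int.floor_le _
  have hc2 : q * H0 * θ < c + 1 := Int.lt_floor_add_one _
  have key : ∀ k ∈ range q, W N (((H0 + k : ℕ) : ℝ) * θ) ≤ gg N q (rs c a q k) := by
    intro k hk
    rw [mem_range] at hk
    set r := rs c a q k with hr
    have hrq : r < q := rs_lt c a q k hq
    obtain ⟨m, hm⟩ := rs_cast c a q k hq
    rw [← hr] at hm
    by_cases hcase : r < 3 ∨ q < r + 3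
    · have h1 : gg N q r ≥ N := by
        unfold gg
        rw [if_pos hcase]
        have h2 := gg_A_nonneg q r
        have h3 := gg_B_nonneg q r
        linarith
      exact (W_le N _).trans h1
    · push Not at hcase
      obtain ⟨h3r, hrq3⟩ := hcase
      -- distance of `h θ` to the nearest integer
      set n : ℤ := round (((H0 + k : ℕ) : ℝ) * θ) with hn
      set δ : ℝ := θ - a / q with hδ
      have hkR : (k : ℝ) ≤ q - 1 := by
        have : (k : ℝ) + 1 ≤ q := by exact_mod_cast hk
        linarith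
      have hk0 : (0 : ℝ) ≤ k := by positivity
      have hexp : q * (((H0 + k : ℕ) : ℝ) * θ - n) =
          (((q * (m - n) + r : ℤ)) : ℝ) + ((q * H0 * θ - c) + q * (k * δ)) := by
        have hm' : (c : ℝ) + k * a = q * m + r := by exact_mod_cast hm
        rw [hδ]
        push_cast
        field_simp
        linear_combination hm'
      have hkδ : |q * (k * δ)| < 1 := by
        rw [abs_mul, abs_mul, abs_of_pos hq0, abs_of_nonneg hk0]
        have : k * |δ| ≤ (q - 1) * (1 / (q : ℝ) ^ 2) :=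
          mul_le_mul hkR hθ (abs_nonneg _) (by linarith)
        calc q * (k * |δ|) ≤ q * ((q - 1) * (1 / (q : ℝ) ^ 2)) := by gcongr
          _ = 1 - 1 / q := by field_simp
          _ < 1 := by
            have : 0 < 1 / (q : ℝ) := by positivity
            linarith
      have herr : |(q * H0 * θ - c) + q * (k * δ)| < 2 := by
        rw [abs_lt] at hkδ ⊢
        constructor <;> linarith [hkδ.1, hkδ.2]
      have hint : ((min r (q - r) : ℕ) : ℝ) ≤ |(((q * (m - n) + r : ℤ)) : ℝ)| := by
        have : ((min r (q - r) : ℕ) : ℤ) ≤ |(q * (m - n) + r : ℤ)| := by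
          rcases lt_trichotomy (m - n) 0 with h | h | h
          · have h1 : m - n ≤ -1 := by omega
            have h2 : (q : ℤ) * (m - n) ≤ q * (-1) := by
              apply mul_le_mul_of_nonneg_left h1
              positivity
            have h3 : (q * (m - n) + r : ℤ) ≤ r - q := by linarith
            have h4 : ((min r (q - r) : ℕ) : ℤ) ≤ q - r := by
              have : min r (q - r) ≤ q - r := min_le_right _ _
              omega
            rw [abs_of_nonpos (by omega)]
            omega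
          · rw [h]
            simp only [mul_zero, zero_add, Nat.abs_cast]
            have : min r (q - r) ≤ r := min_le_left _ _
            exact_mod_cast this
          · have h1 : 1 ≤ m - n := by omega
            have h2 : (q : ℤ) * 1 ≤ q * (m - n) := by
              apply mul_le_mul_of_nonneg_left h1
              positivity
            have h4 : ((min r (q - r) : ℕ) : ℤ) ≤ r := by
              have : min r (q - r) ≤ r := min_le_left _ _
              exact_mod_cast this
            rw [abs_of_nonneg (by omega)]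
            omega
        have h5 : (((min r (q - r) : ℕ) : ℤ) : ℝ) ≤ ((|(q * (m - n) + r : ℤ)| : ℤ) : ℝ) := by
          exact_mod_cast this
        rw [Int.cast_abs] at h5
        simpa using h5
      have hnd : ((min r (q - r) : ℕ) : ℝ) - 2 ≤ q * nd (((H0 + k : ℕ) : ℝ) * θ) := by
        have h1 : q * nd (((H0 + k : ℕ) : ℝ) * θ) = |q * (((H0 + k : ℕ) : ℝ) * θ - n)| := by
          rw [abs_mul, abs_of_pos hq0]
          rfl
        rw [h1, hexp]
        have h2 := abs_sub_abs_le_abs_sub (((q * (m - n) + r : ℤ)) : ℝ) (-((q * H0 * θ - c) + q * (k * δ)))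
        rw [abs_neg, sub_neg_eq_add] at h2
        linarith
      have hmin3 : 3 ≤ min r (q - r) := by omega
      have hmin3R : (3 : ℝ) ≤ ((min r (q - r) : ℕ) : ℝ) := by exact_mod_cast hmin3
      have hW := W_le_of N (((H0 + k : ℕ) : ℝ) * θ) ((((min r (q - r) : ℕ) : ℝ) - 2) / q)
        (by apply div_pos _ hq0; linarith) (by rw [div_le_iff₀ hq0]; linarith)
      refine hW.trans ?_
      have h6 : 1 / (2 * ((((min r (q - r) : ℕ) : ℝ) - 2) / q)) =
          q / (2 * (((min r (q - r) : ℕ) : ℝ) - 2)) := by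
        have : ((min r (q - r) : ℕ) : ℝ) - 2 ≠ 0 := by linarith
        field_simp
      rw [h6]
      unfold gg
      rw [if_pos h3r, if_pos hrq3, if_neg (by omega), zero_add]
      rcases min_choice r (q - r) with h | h
      · rw [h]
        have h7 := gg_B_nonneg q r
        rw [if_pos hrq3] at h7
        linarith
      · rw [h]
        have h7 := gg_A_nonneg q r
        rw [if_pos h3r] at h7
        rw [Nat.cast_sub hrq.le]
        linarith
  refine (sum_le_sum key).trans ?_
  have himg : (range q).image (rs c a q) = range q := by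
    apply eq_of_subset_of_card_le
    · intro x hx
      rw [mem_image] at hx
      obtain ⟨k, _, rfl⟩ := hx
      rw [mem_range]
      exact rs_lt c a q k hq
    · rw [card_image_of_injOn (rs_inj c a q hq hco)]
  rw [← sum_image (f := fun r => gg N q r) (rs_inj c a q hq hco), himg]
  exact sum_gg N q hq

lemma total (N q : ℕ) (hq : 1 ≤ q) (a : ℤ) (θ : ℝ) (hco : IsCoprime a (q : ℤ))
    (hθ : |θ - a / q| ≤ 1 / (q : ℝ) ^ 2) (M : ℕ) :
    ∑ h ∈ range (q * M), W N ((h : ℝ) * θ) ≤ M * (5 * N + q * (1 + Real.log q)) := by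
  induction M with
  | zero => simp
  | succ M ih =>
    rw [Nat.mul_succ, sum_range_add]
    have := block N q hq a θ hco hθ (q * M)
    push_cast at *
    linarith

/-- Weyl's inequality for quadratic sums -/
theorem weyl_quad (N q : ℕ) (hq : 1 ≤ q) (a : ℤ) (y : ℝ) (hco : IsCoprime a (q : ℤ))
    (hy : |y - a / q| ≤ 1 / (q : ℝ) ^ 2) :
    ‖∑ x ∈ range N, e (y * ((x : ℝ) + 1) ^ 2)‖ ^ 2 ≤
      2 * ((2 * N / q + 1) * (5 * N + q * (1 + Real.log q))) := by
  have hq0 : (0 : ℝ) < q := by exact_mod_cast hq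
  refine (diff_ineq (fun x : ℕ => e (y * ((x : ℝ) + 1) ^ 2)) N).trans ?_
  apply mul_le_mul_of_nonneg_left _ (by norm_num)
  have h1 : ∀ h ∈ range N, ‖∑ x ∈ range (N - h), e (y * (((h + x : ℕ) : ℝ) + 1) ^ 2) *
      (starRingEnd ℂ) (e (y * ((x : ℝ) + 1) ^ 2))‖ ≤ W N (((2 * h : ℕ) : ℝ) * y) := by
    intro h _
    have e1 : ∑ x ∈ range (N - h), e (y * (((h + x : ℕ) : ℝ) + 1) ^ 2) *
      (starRingEnd ℂ) (e (y * ((x : ℝ) + 1) ^ 2)) =
      e (y * ((h : ℝ) ^ 2 + 2 * h)) * ∑ x ∈ range (N - h), e ((((2 * h : ℕ) : ℝ) * y) * x) := by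
      rw [mul_sum]
      apply sum_congr rfl
      intro x _
      rw [← e_neg, ← e_add, ← e_add]
      congr 1
      push_cast
      ring
    rw [e1, norm_mul, norm_e, one_mul]
    exact inner_le N _ (Nat.sub_le _ _) _
  refine (sum_le_sum h1).trans ?_
  have h2 : ∑ h ∈ range N, W N (((2 * h : ℕ) : ℝ) * y) ≤
      ∑ h ∈ range (q * (2 * N / q + 1)), W N ((h : ℝ) * y) := by
    have h3 : ∑ h ∈ range N, W N (((2 * h : ℕ) : ℝ) * y) =
        ∑ h ∈ (range N).image (fun h : ℕ => 2 * h), W N ((h : ℝ) * y) := by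
      rw [sum_image]
      intro a _ b _ hab
      simp only at hab
      omega
    rw [h3]
    apply sum_le_sum_of_subset_of_nonneg
    · intro x hx
      rw [mem_image] at hx
      obtain ⟨h, hh, rfl⟩ := hx
      rw [mem_range] at *
      have := Nat.lt_mul_div_succ (2 * N) hq
      rw [Nat.mul_add, Nat.mul_one] at *
      omega
    · intro i _ _
      exact W_nonneg _ _
  refine h2.trans ((total N q hq a y hco hy _).trans ?_)
  have h4 : ((2 * N / q : ℕ) : ℝ) ≤ 2 * N / q := by
    have := @Nat.cast_div_le ℝ _ _ _ (2 * N) q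
    push_cast at this
    exact this
  have h5 : 0 ≤ Real.log q := Real.log_natCast_nonneg q
  push_cast
  apply mul_le_mul_of_nonneg_right
  · linarith
  · positivity

end Pool.Agent.K4H3.WS
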