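import Mathlib
import Pool.Agent.K4H3.WS.Weyl

/-! Lower bounds for quadratic exponential sums near rationals with odd denominator. -/

set_option autoImplicit false

namespace Pool.Agent.K4H3.WS

open Finset Pool.Agent.H520R3

lemma gauss_sq (q : ℕ) [NeZero q] (hodd : Odd q) (a : ZMod q) (ha : IsUnit a) :
    ‖∑ z : ZMod q, ZMod.stdAddChar (a * z ^ 2)‖ ^ 2 = q := by
  have h1 : ((‖∑ z : ZMod q, ZMod.stdAddChar (a * z ^ 2)‖ ^ 2 : ℝ) : ℂ) = (q : ℂ) := by
    push_cast
    rw [← Complex.mul_conj']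
    rw [map_sum, sum_mul_sum]
    have h2 : ∀ z : ZMod q, ∑ w : ZMod q, ZMod.stdAddChar (a * z ^ 2) *
        (starRingEnd ℂ) (ZMod.stdAddChar (a * w ^ 2)) =
        ∑ h : ZMod q, ZMod.stdAddChar (a * z ^ 2) *
        (starRingEnd ℂ) (ZMod.stdAddChar (a * (z + h) ^ 2)) := by
      intro z
      exact (Equiv.sum_comp (Equiv.addLeft z) (fun w => ZMod.stdAddChar (a * z ^ 2) *
        (starRingEnd ℂ) (ZMod.stdAddChar (a * w ^ 2)))).symm
    rw [sum_congr rfl (fun z _ => h2 z), sum_comm]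
    have h3 : ∀ h : ZMod q, ∑ z : ZMod q, ZMod.stdAddChar (a * z ^ 2) *
        (starRingEnd ℂ) (ZMod.stdAddChar (a * (z + h) ^ 2)) =
        ZMod.stdAddChar (-(a * h ^ 2)) * (if (-(2 * a * h)) = 0 then (q : ℂ) else 0) := by
      intro h
      have h4 := AddChar.sum_mulShift (ψ := ZMod.stdAddChar (N := q)) (-(2 * a * h))
        (ZMod.isPrimitive_stdAddChar q)
      rw [ZMod.card] at h4
      have h5 : (if (-(2 * a * h)) = 0 then (q : ℂ) else 0) =
          ((if (-(2 * a * h)) = 0 then q else 0 : ℕ) : ℂ) := by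
        split_ifs <;> simp
      rw [h5, ← h4, mul_sum]
      apply sum_congr rfl
      intro z _
      rw [← AddChar.map_neg_eq_conj, ← AddChar.map_add_eq_mul, ← AddChar.map_add_eq_mul]
      congr 1
      ring
    rw [sum_congr rfl (fun h _ => h3 h)]
    have h2u : IsUnit (2 : ZMod q) := by
      have : IsUnit ((2 : ℕ) : ZMod q) := by
        rw [ZMod.isUnit_iff_coprime]
        exact (Nat.coprime_two_left.mpr hodd)
      simpa using this
    have h6 : ∀ h : ZMod q, (-(2 * a * h)) = 0 ↔ h = 0 := by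
      intro h
      rw [neg_eq_zero]
      exact (h2u.mul ha).mul_right_eq_zero
    simp only [h6]
    rw [Finset.sum_eq_single 0]
    · simp
    · intro h _ hne
      rw [if_neg hne, mul_zero]
    · simp
  exact_mod_cast h1

lemma sum_range_zmod (q : ℕ) [NeZero q] (F : ZMod q → ℂ) :
    ∑ x ∈ range q, F ((x : ℕ) : ZMod q) = ∑ z : ZMod q, F z := by
  apply sum_bij (fun (x : ℕ) _ => (x : ZMod q))
  · intro x _
    exact mem_univ _
  · intro x hx y hy hxy
    rw [mem_range] at hx hy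
    have := (ZMod.natCast_eq_natCast_iff' x y q).1 hxy
    rwa [Nat.mod_eq_of_lt hx, Nat.mod_eq_of_lt hy] at this
  · intro z _
    refine ⟨z.val, mem_range.2 (ZMod.val_lt z), ?_⟩
    exact ZMod.natCast_zmod_val z
  · intro x _
    rfl

lemma e_std (q : ℕ) [NeZero q] (a : ℤ) (x : ℕ) :
    e ((a : ℝ) / q * ((x : ℝ) + 1) ^ 2) = ZMod.stdAddChar ((a : ZMod q) * ((x : ZMod q) + 1) ^ 2) := by
  have h1 : ((a : ZMod q) * ((x : ZMod q) + 1) ^ 2) = ((a * ((x : ℤ) + 1) ^ 2 : ℤ) : ZMod q) := by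
    push_cast
    ring
  rw [h1, ZMod.stdAddChar_coe]
  unfold e
  congr 1
  push_cast
  ring

lemma gauss_norm (q : ℕ) (hq : 1 ≤ q) (hodd : Odd q) (a : ℤ) (hco : IsCoprime a (q : ℤ)) :
    ‖∑ x ∈ range q, e ((a : ℝ) / q * ((x : ℝ) + 1) ^ 2)‖ = √q := by
  have : NeZero q := ⟨by omega⟩
  have h1 : ∑ x ∈ range q, e ((a : ℝ) / q * ((x : ℝ) + 1) ^ 2) =
      ∑ z : ZMod q, ZMod.stdAddChar ((a : ZMod q) * z ^ 2) := by
    rw [sum_congr rfl (fun x _ => e_std q a x)]
    rw [sum_range_zmod q (fun z => ZMod.stdAddChar ((a : ZMod q) * (z + 1) ^ 2))]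
    exact Equiv.sum_comp (Equiv.addRight (1 : ZMod q)) (fun z => ZMod.stdAddChar ((a : ZMod q) * z ^ 2))
  have ha : IsUnit (a : ZMod q) := by
    obtain ⟨u, v, huv⟩ := hco
    have : (u : ZMod q) * a = 1 := by
      have := congrArg (Int.cast : ℤ → ZMod q) huv
      push_cast at this
      rw [ZMod.natCast_self, mul_zero, add_zero] at this
      exact this
    exact IsUnit.of_mul_eq_one_right _ this
  have h2 := gauss_sq q hodd (a : ZMod q) ha
  rw [← h1] at h2
  have h3 := Real.sqrt_sq (norm_nonneg (∑ x ∈ range q, e ((a : ℝ) / q * ((x : ℝ) + 1) ^ 2)))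
  rw [h2] at h3
  exact h3.symm

/-- periodic sums -/
lemma periodic_sum (u : ℕ → ℂ) (q : ℕ) (hper : ∀ x, u (x + q) = u x) (Y : ℕ) :
    ∑ x ∈ range (q * Y), u x = Y * ∑ x ∈ range q, u x := by
  induction Y with
  | zero => simp
  | succ Y ih =>
    rw [Nat.mul_succ, sum_range_add, ih]
    have hper' : ∀ k x : ℕ, u (q * k + x) = u x := by
      intro k x
      induction k with
      | zero => simp
      | succ k ih => rw [← ih, ← hper (q * k + x)]; congr 1; ring
    rw [sum_congr rfl (fun x _ => hper' Y x)]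
    push_cast
    ring

lemma periodic_range (u : ℕ → ℂ) (q : ℕ) (hper : ∀ x, u (x + q) = u x) (Y r : ℕ) :
    ∑ x ∈ range (q * Y + r), u x = Y * ∑ x ∈ range q, u x + ∑ x ∈ range r, u x := by
  rw [sum_range_add, periodic_sum u q hper]
  congr 1
  apply sum_congr rfl
  intro x _
  induction Y with
  | zero => simp
  | succ k ih => rw [← ih, ← hper (q * k + x)]; congr 1; ring

lemma partial_bound (q : ℕ) (hq : 1 ≤ q) (hodd : Odd q) (a : ℤ) (hco : IsCoprime a (q : ℤ)) (n : ℕ) :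
    ‖∑ x ∈ range n, (e ((a : ℝ) / q * ((x : ℝ) + 1) ^ 2) -
      (∑ x ∈ range q, e ((a : ℝ) / q * ((x : ℝ) + 1) ^ 2)) / q)‖ ≤ 7 * √(q * (1 + Real.log q)) := by
  have hq0 : (0 : ℝ) < q := by exact_mod_cast hq
  have hlog : 0 ≤ Real.log q := Real.log_natCast_nonneg q
  set u : ℕ → ℂ := fun x => e ((a : ℝ) / q * ((x : ℝ) + 1) ^ 2) with hu
  set G := ∑ x ∈ range q, u x with hG
  have hper : ∀ x, u (x + q) = u x := by
    intro x
    simp only [hu]
    have : (a : ℝ) / q * (((x + q : ℕ) : ℝ) + 1) ^ 2 =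
        a / q * ((x : ℝ) + 1) ^ 2 + ((a * (2 * (x + 1) + q) : ℤ) : ℝ) := by
      push_cast
      field_simp
      ring
    rw [this, e_add_int]
  have h1 : ∑ x ∈ range n, (u x - G / q) = ∑ x ∈ range (n % q), u x - ((n % q : ℕ) : ℂ) * (G / q) := by
    rw [sum_sub_distrib, sum_const, card_range, nsmul_eq_mul]
    have h2 := Nat.div_add_mod n q
    conv_lhs => rw [← h2]
    rw [periodic_range u q hper]
    have hqC : (q : ℂ) ≠ 0 := by exact_mod_cast hq0.ne'
    have hmod : ((q * (n / q) + n % q : ℕ) % q : ℕ) = n % q := by rw [h2]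
    push_cast
    field_simp
    ring
  rw [h1]
  have hr : n % q < q := Nat.mod_lt _ hq
  have hrR : ((n % q : ℕ) : ℝ) ≤ q := by exact_mod_cast hr.le
  have hGn : ‖G‖ = √q := gauss_norm q hq hodd a hco
  have hW := weyl_quad (n % q) q hq a ((a : ℝ) / q) hco (by rw [sub_self, abs_zero]; positivity)
  have hr0 : (0 : ℝ) ≤ ((n % q : ℕ) : ℝ) := by positivity
  have hW2 : ‖∑ x ∈ range (n % q), u x‖ ^ 2 ≤ 36 * (q * (1 + Real.log q)) := by
    refine hW.trans ?_
    have h3 : 2 * ((n % q : ℕ) : ℝ) / q ≤ 2 := by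
      rw [div_le_iff₀ hq0]; linarith
    have h4 : 5 * ((n % q : ℕ) : ℝ) + q * (1 + Real.log q) ≤ 6 * (q * (1 + Real.log q)) := by
      have : (q : ℝ) ≤ q * (1 + Real.log q) := by nlinarith
      linarith
    have h5 : (2 * ((n % q : ℕ) : ℝ) / q + 1) * (5 * ((n % q : ℕ) : ℝ) + q * (1 + Real.log q)) ≤
        3 * (6 * (q * (1 + Real.log q))) := by
      apply mul_le_mul (by linarith) h4 (by positivity) (by norm_num)
    linarith
  have hW3 : ‖∑ x ∈ range (n % q), u x‖ ≤ 6 * √(q * (1 + Real.log q)) := by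
    have h3 : 6 * √(q * (1 + Real.log q)) = √(36 * (q * (1 + Real.log q))) := by
      rw [Real.sqrt_mul (by norm_num : (0 : ℝ) ≤ 36) (q * (1 + Real.log q)),
        show (36 : ℝ) = 6 ^ 2 by norm_num, Real.sqrt_sq (by norm_num : (0 : ℝ) ≤ 6)]
    rw [h3]
    exact Real.le_sqrt_of_sq_le hW2
  have h6 : ‖((n % q : ℕ) : ℂ) * (G / q)‖ ≤ √(q * (1 + Real.log q)) := by
    rw [norm_mul, norm_div, Complex.norm_natCast, Complex.norm_natCast, hGn]
    have h7 : ((n % q : ℕ) : ℝ) * (√q / q) ≤ √q := by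
      calc ((n % q : ℕ) : ℝ) * (√q / q) ≤ q * (√q / q) := by gcongr
        _ = √q := by field_simp
    refine h7.trans ?_
    apply Real.sqrt_le_sqrt
    nlinarith
  calc _ ≤ ‖∑ x ∈ range (n % q), u x‖ + ‖((n % q : ℕ) : ℂ) * (G / q)‖ := norm_sub_le _ _
    _ ≤ _ := by linarith

/-- lower bound for the quadratic sum near a rational with odd denominator -/
theorem lower (N q : ℕ) (hq : 1 ≤ q) (hodd : Odd q) (a : ℤ) (hco : IsCoprime a (q : ℤ)) (y : ℝ)
    (hy : 2 * Real.pi * |y - a / q| * ((N : ℝ) + 1) ^ 2 ≤ 1 / 2) :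
    N / (2 * √q) - 11 * √(q * (1 + Real.log q)) ≤
      ‖∑ x ∈ range N, e (y * ((x : ℝ) + 1) ^ 2)‖ := by
  have hq0 : (0 : ℝ) < q := by exact_mod_cast hq
  have hlog : 0 ≤ Real.log q := Real.log_natCast_nonneg q
  set β : ℝ := y - a / q with hβ
  set u : ℕ → ℂ := fun x => e ((a : ℝ) / q * ((x : ℝ) + 1) ^ 2) with hu
  set w : ℕ → ℂ := fun x => e (β * ((x : ℝ) + 1) ^ 2) with hw
  set G := ∑ x ∈ range q, u x with hG
  have hGn : ‖G‖ = √q := gauss_norm q hq hodd a hco
  have hpi := Real.pi_pos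
  have hV : ∑ x ∈ range N, ‖w (x + 1) - w x‖ ≤ 1 / 2 := by
    refine le_trans ?_ hy
    calc ∑ x ∈ range N, ‖w (x + 1) - w x‖
        ≤ ∑ x ∈ range N, 2 * Real.pi * |β| * (2 * x + 3) := by
          apply sum_le_sum
          intro x _
          refine le_trans (norm_e_sub_e_le _ _) ?_
          have : β * (((x + 1 : ℕ) : ℝ) + 1) ^ 2 - β * ((x : ℝ) + 1) ^ 2 = β * (2 * x + 3) := by
            push_cast; ring
          rw [this, abs_mul, abs_of_nonneg (by positivity : (0:ℝ) ≤ 2 * x + 3)]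
          apply le_of_eq; ring
      _ = 2 * Real.pi * |β| * ((N : ℝ) ^ 2 + 2 * N) := by
          rw [← mul_sum]
          congr 1
          have : ∀ n : ℕ, ∑ x ∈ range n, (2 * (x : ℝ) + 3) = (n : ℝ) ^ 2 + 2 * n := by
            intro n
            induction n with
            | zero => simp
            | succ n ih => rw [sum_range_succ, ih]; push_cast; ring
          exact this N
      _ ≤ 2 * Real.pi * |β| * ((N : ℝ) + 1) ^ 2 := by
          apply mul_le_mul_of_nonneg_left _ (by positivity)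
          nlinarith
  have hab := abel_bound w (fun x => u x - G / q) (7 * √(q * (1 + Real.log q))) (1 / 2)
    (by positivity) N (fun X _ => partial_bound q hq hodd a hco X) (fun x => (norm_e _).le) hV
  have hsplit : ∑ x ∈ range N, e (y * ((x : ℝ) + 1) ^ 2) =
      ∑ x ∈ range N, w x * (u x - G / q) + (G / q) * ∑ x ∈ range N, w x := by
    rw [mul_sum, ← sum_add_distrib]
    apply sum_congr rfl
    intro x _
    have : e (y * ((x : ℝ) + 1) ^ 2) = w x * u x := by
      simp only [hw, hu]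
      rw [← e_add]
      congr 1
      rw [hβ]
      ring
    rw [this]
    ring
  have hw1 : ‖∑ x ∈ range N, w x - N‖ ≤ N / 2 := by
    have h1 : ∑ x ∈ range N, w x - (N : ℂ) = ∑ x ∈ range N, (w x - 1) := by
      rw [sum_sub_distrib]
      simp
    rw [h1]
    refine (norm_sum_le _ _).trans ?_
    calc ∑ x ∈ range N, ‖w x - 1‖ ≤ ∑ x ∈ range N, (1 / 2 : ℝ) := by
          apply sum_le_sum
          intro x hx
          refine (norm_e_sub_one_le _).trans ?_
          refine le_trans ?_ hy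
          rw [abs_mul, abs_of_nonneg (by positivity : (0:ℝ) ≤ ((x : ℝ) + 1) ^ 2), ← mul_assoc]
          apply mul_le_mul_of_nonneg_left _ (by positivity)
          have : (x : ℝ) + 1 ≤ N := by
            rw [mem_range] at hx
            exact_mod_cast hx
          apply pow_le_pow_left₀ (by positivity)
          linarith
      _ = N / 2 := by simp; ring
  have hw2 : (N : ℝ) / 2 ≤ ‖∑ x ∈ range N, w x‖ := by
    have h1 := norm_sub_norm_le (N : ℂ) (∑ x ∈ range N, w x)
    rw [norm_sub_rev, Complex.norm_natCast] at h1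
    linarith
  have hmain : N / (2 * √q) ≤ ‖(G / q) * ∑ x ∈ range N, w x‖ := by
    rw [norm_mul, norm_div, Complex.norm_natCast, hGn]
    have hsq : √(q : ℝ) * √q = q := Real.mul_self_sqrt hq0.le
    have hs0 : 0 < √(q : ℝ) := Real.sqrt_pos.2 hq0
    have h1 : √(q : ℝ) / q = 1 / √q := by
      rw [div_eq_div_iff hq0.ne' hs0.ne', one_mul, hsq]
    rw [h1]
    calc (N : ℝ) / (2 * √q) = 1 / √q * (N / 2) := by field_simp
      _ ≤ 1 / √q * ‖∑ x ∈ range N, w x‖ := by gcongr
  rw [hsplit]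
  have h1 := norm_sub_norm_le ((G / q) * ∑ x ∈ range N, w x) (-(∑ x ∈ range N, w x * (u x - G / q)))
  rw [norm_neg, sub_neg_eq_add, add_comm] at h1
  have h2 : (7 * √(q * (1 + Real.log q))) * (1 + 1 / 2) ≤ 11 * √(q * (1 + Real.log q)) := by
    have : 0 ≤ √(q * (1 + Real.log q)) := Real.sqrt_nonneg _
    linarith
  linarith

end Pool.Agent.K4H3.WS
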