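import Mathlib
import Pool.Agent.K4H3.WS.Gauss

/-! Growth exponents of quadratic exponential sums at numbers of prescribed irrationality type. -/

set_option autoImplicit false

namespace Pool.Agent.K4H3.WS

open Finset Filter Topology Pool.Agent.H520R3

/-- the quadratic sum `∑_{n = 1}^N e(y n²)` -/
noncomputable def SQ (y : ℝ) (N : ℕ) : ℂ := ∑ x ∈ range N, e (y * ((x : ℝ) + 1) ^ 2)

/-- the growth exponent of a sequence -/
noncomputable def sig (S : ℕ → ℂ) : EReal :=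
  limsup (fun N : ℕ => ENNReal.log ‖S N‖ₑ / ((Real.log N : ℝ) : EReal)) atTop

lemma term_le {S : ℕ → ℂ} {N : ℕ} (hN : 2 ≤ N) {b : ℝ} (h : ‖S N‖ ≤ (N : ℝ) ^ b) :
    ENNReal.log ‖S N‖ₑ / ((Real.log N : ℝ) : EReal) ≤ (b : EReal) := by
  have hN1 : (1 : ℝ) < N := by exact_mod_cast hN
  have hlog : 0 < Real.log N := Real.log_pos hN1
  have hlogE : (0 : EReal) < ((Real.log N : ℝ) : EReal) := by exact_mod_cast hlog
  rw [EReal.div_le_iff_le_mul hlogE (EReal.coe_ne_top _)]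
  have h1 : ‖S N‖ₑ ≤ ENNReal.ofReal ((N : ℝ) ^ b) := by
    rw [← ofReal_norm]
    exact ENNReal.ofReal_le_ofReal h
  refine (ENNReal.log_monotone h1).trans ?_
  rw [ENNReal.log_ofReal_of_pos (by positivity), Real.log_rpow (by linarith), mul_comm]
  exact_mod_cast le_rfl

lemma le_term {S : ℕ → ℂ} {N : ℕ} (hN : 2 ≤ N) {b : ℝ} (h : (N : ℝ) ^ b ≤ ‖S N‖) :
    (b : EReal) ≤ ENNReal.log ‖S N‖ₑ / ((Real.log N : ℝ) : EReal) := by
  have hN1 : (1 : ℝ) < N := by exact_mod_cast hN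
  have hlog : 0 < Real.log N := Real.log_pos hN1
  have hlogE : (0 : EReal) < ((Real.log N : ℝ) : EReal) := by exact_mod_cast hlog
  rw [EReal.le_div_iff_mul_le hlogE (EReal.coe_ne_top _)]
  have h1 : ENNReal.ofReal ((N : ℝ) ^ b) ≤ ‖S N‖ₑ := by
    rw [← ofReal_norm]
    exact ENNReal.ofReal_le_ofReal h
  refine le_trans ?_ (ENNReal.log_monotone h1)
  rw [ENNReal.log_ofReal_of_pos (by positivity), Real.log_rpow (by linarith)]
  exact_mod_cast le_rfl

theorem sig_eq (S : ℕ → ℂ) (α : ℝ) (hα : 0 < α)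
    (hu : ∀ ε : ℝ, 0 < ε → ∀ᶠ N : ℕ in atTop, ‖S N‖ ≤ (N : ℝ) ^ (α + ε))
    (hl : ∀ s : ℝ, 0 < s → s < α → ∃ᶠ N : ℕ in atTop, (N : ℝ) ^ s ≤ ‖S N‖) : sig S = (α : EReal) := by
  apply le_antisymm
  · apply le_of_forall_gt_imp_ge_of_dense
    intro b hb
    induction b with
    | bot => exact absurd hb (by simp)
    | top => exact le_top
    | coe b =>
      have hb' : α < b := by exact_mod_cast hb
      apply limsup_le_of_le (by isBoundedDefault)
      filter_upwards [hu (b - α) (by linarith), eventually_ge_atTop 2] with N h1 h2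
      apply term_le h2
      have : α + (b - α) = b := by ring
      rwa [this] at h1
  · apply le_of_forall_lt_imp_le_of_dense
    intro b hb
    induction b with
    | bot => exact bot_le
    | top => exact absurd hb (by simp)
    | coe b =>
      have hb' : b < α := by exact_mod_cast hb
      obtain ⟨s, hs1, hs2⟩ := exists_between (max_lt hb' hα)
      have hs0 : 0 < s := lt_of_le_of_lt (le_max_right _ _) hs1
      have hbs : b ≤ s := (le_max_left _ _).trans hs1.le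
      have h1 : (s : EReal) ≤ sig S := by
        apply le_limsup_of_frequently_le'
        have := (hl s hs0 hs2).and_eventually (eventually_ge_atTop 2)
        exact this.mono fun N hN => le_term hN.2 hN.1
      exact le_trans (by exact_mod_cast hbs) h1

theorem upper (τ : ℝ) (hτ : 2 < τ) (y c : ℝ) (hc : 0 < c)
    (h : ∀ (a : ℤ) (q : ℕ), 1 ≤ q → c * (q : ℝ) ^ (-τ) ≤ |y - a / q|) (ε : ℝ) (hε : 0 < ε) :
    ∀ᶠ N : ℕ in atTop, ‖SQ y N‖ ≤ (N : ℝ) ^ (1 - 1 / τ + ε) := by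
  set α : ℝ := 1 - 1 / τ with hα
  have hτ0 : 0 < τ := by linarith
  have hτinv : 1 / τ < 1 / 2 := one_div_lt_one_div_of_lt (by norm_num) hτ
  have hτinv0 : 0 < 1 / τ := by positivity
  set c' : ℝ := c ^ (1 / (τ - 1)) with hc'
  have hc'0 : 0 < c' := by positivity
  set K : ℝ := 2 * (10 / c' + 4 + 10 + 2) with hK
  have hK0 : 0 < K := by positivity
  -- main estimate
  have main : ∀ N : ℕ, 1 ≤ N → ‖SQ y N‖ ^ 2 ≤ K * ((N : ℝ) ^ (2 * α) * (1 + 2 * Real.log N)) := by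
    intro N hN
    have hN1 : (1 : ℝ) ≤ N := by exact_mod_cast hN
    have hN0 : (0 : ℝ) < N := by linarith
    set X : ℝ := (N : ℝ) ^ (2 * α) with hX
    have hXN : (N : ℝ) ≤ X := by
      calc (N : ℝ) = (N : ℝ) ^ (1 : ℝ) := (Real.rpow_one _).symm
        _ ≤ X := Real.rpow_le_rpow_of_exponent_le hN1 (by rw [hα]; linarith)
    have hX1 : 1 ≤ X := hN1.trans hXN
    have hX0 : 0 < X := by linarith
    have hn : 0 < ⌊X⌋₊ := Nat.floor_pos.2 hX1
    obtain ⟨r, hr1, hr2⟩ := Real.exists_rat_abs_sub_le_and_den_le y hn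
    set q : ℕ := r.den with hq
    set a : ℤ := r.num with ha
    have hq1 : 1 ≤ q := r.den_pos
    have hq0 : (0 : ℝ) < q := by exact_mod_cast hq1
    have hq1R : (1 : ℝ) ≤ q := by exact_mod_cast hq1
    have hra : (r : ℝ) = a / q := by
      rw [Rat.cast_def]
    rw [hra] at hr1
    have hco : IsCoprime a (q : ℤ) := by
      rw [Int.isCoprime_iff_gcd_eq_one]
      exact r.reduced
    have hXfl : X < ⌊X⌋₊ + 1 := Nat.lt_floor_add_one X
    have hflX : ((⌊X⌋₊ : ℕ) : ℝ) ≤ X := Nat.floor_le hX0.le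
    have hqfl : (q : ℝ) ≤ ⌊X⌋₊ := by exact_mod_cast hr2
    have hqX : (q : ℝ) ≤ X := hqfl.trans hflX
    have h1 : |y - a / q| ≤ 1 / (X * q) := by
      refine hr1.trans ?_
      apply one_div_le_one_div_of_le (by positivity)
      apply mul_le_mul_of_nonneg_right hXfl.le hq0.le
    have h2 : |y - a / q| ≤ 1 / (q : ℝ) ^ 2 := by
      refine h1.trans ?_
      apply one_div_le_one_div_of_le (by positivity)
      rw [sq]
      apply mul_le_mul_of_nonneg_right hqX hq0.le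
    have h3 : c * X ≤ (q : ℝ) ^ (τ - 1) := by
      have h4 := (h a q hq1).trans h1
      rw [le_div_iff₀ (by positivity)] at h4
      have h5 : (q : ℝ) ^ (-τ) * q = ((q : ℝ) ^ (τ - 1))⁻¹ := by
        rw [← Real.rpow_neg hq0.le]
        calc (q : ℝ) ^ (-τ) * q = (q : ℝ) ^ (-τ) * (q : ℝ) ^ (1 : ℝ) := by rw [Real.rpow_one]
          _ = (q : ℝ) ^ (-τ + 1) := (Real.rpow_add hq0 _ _).symm
          _ = _ := by congr 1; ring
      have h6 : c * (q : ℝ) ^ (-τ) * (X * q) = c * X * ((q : ℝ) ^ (τ - 1))⁻¹ := by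
        rw [← h5]; ring
      rw [h6, ← div_eq_mul_inv, div_le_one (by positivity)] at h4
      exact h4
    have h4 : c' * (N : ℝ) ^ (2 / τ) ≤ q := by
      have h5 : (c * X) ^ (1 / (τ - 1)) ≤ ((q : ℝ) ^ (τ - 1)) ^ (1 / (τ - 1)) :=
        Real.rpow_le_rpow (by positivity) h3 (by apply div_nonneg (by norm_num); linarith)
      rw [← Real.rpow_mul hq0.le, mul_one_div, div_self (by linarith : τ - 1 ≠ 0), Real.rpow_one,
        Real.mul_rpow hc.le hX0.le, hX, ← Real.rpow_mul hN0.le] at h5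
      have h6 : 2 * α * (1 / (τ - 1)) = 2 / τ := by
        rw [hα]
        have : τ - 1 ≠ 0 := by linarith
        field_simp
      rwa [h6] at h5
    have h5 : (N : ℝ) * N / q ≤ X / c' := by
      rw [div_le_div_iff₀ hq0 hc'0]
      have h6 : X * (N : ℝ) ^ (2 / τ) = N * N := by
        rw [hX, ← Real.rpow_add hN0]
        have : 2 * α + 2 / τ = 2 := by rw [hα]; ring
        rw [this]
        norm_num
        ring
      calc (N : ℝ) * N * c' = X * (c' * (N : ℝ) ^ (2 / τ)) := by rw [← h6]; ring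
        _ ≤ X * q := by gcongr
    have hW := weyl_quad N q hq1 a y hco h2
    have hlogN : 0 ≤ Real.log N := Real.log_natCast_nonneg N
    have hlogq0 : 0 ≤ Real.log q := Real.log_natCast_nonneg q
    have hlogq : Real.log q ≤ 2 * Real.log N := by
      calc Real.log q ≤ Real.log X := Real.log_le_log hq0 hqX
        _ = 2 * α * Real.log N := by rw [hX, Real.log_rpow hN0]
        _ ≤ 2 * 1 * Real.log N := by
          apply mul_le_mul_of_nonneg_right _ hlogN
          rw [hα]; linarith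
        _ = 2 * Real.log N := by ring
    set L := 1 + 2 * Real.log N with hL
    have hL1 : 1 ≤ L := by rw [hL]; linarith
    have h7 : (2 * (N : ℝ) / q + 1) * (5 * N + q * (1 + Real.log q)) ≤
        (2 * (N : ℝ) / q + 1) * (5 * N + q * L) := by
      gcongr
      rw [hL]; linarith
    have h8 : (2 * (N : ℝ) / q + 1) * (5 * N + q * L) = 10 * (N * N / q) + 2 * N * L + 5 * N + q * L := by
      field_simp
      ring
    have h9 : 10 * ((N : ℝ) * N / q) ≤ 10 / c' * (X * L) := by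
      calc 10 * ((N : ℝ) * N / q) ≤ 10 * (X / c') := by gcongr
        _ = 10 / c' * (X * 1) := by ring
        _ ≤ 10 / c' * (X * L) := by gcongr
    have h10 : 2 * (N : ℝ) * L ≤ 4 * (X * L) := by
      have : (N : ℝ) * L ≤ X * L := by gcongr
      nlinarith [mul_pos hX0 (lt_of_lt_of_le one_pos hL1)]
    have h11 : 5 * (N : ℝ) ≤ 10 * (X * L) := by
      have : (N : ℝ) * 1 ≤ X * L := by
        apply mul_le_mul hXN hL1 (by norm_num) hX0.le
      nlinarith
    have h12 : (q : ℝ) * L ≤ 2 * (X * L) := by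
      have : (q : ℝ) * L ≤ X * L := by gcongr
      nlinarith [mul_pos hX0 (lt_of_lt_of_le one_pos hL1)]
    calc ‖SQ y N‖ ^ 2 ≤ 2 * ((2 * N / q + 1) * (5 * N + q * (1 + Real.log q))) := hW
      _ ≤ 2 * (10 * (N * N / q) + 2 * N * L + 5 * N + q * L) := by rw [← h8]; linarith
      _ ≤ 2 * (10 / c' * (X * L) + 4 * (X * L) + 10 * (X * L) + 2 * (X * L)) := by linarith
      _ = K * (X * L) := by rw [hK]; ring
  -- absorb the logarithm
  have hlo : (fun x : ℝ => K * (1 + 2 * Real.log x)) =o[atTop] fun x : ℝ => x ^ (2 * ε) := by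
    have h1 : (fun _ : ℝ => (1 : ℝ)) =o[atTop] fun x : ℝ => x ^ (2 * ε) := by
      rw [Asymptotics.isLittleO_const_left_of_ne one_ne_zero]
      exact tendsto_norm_atTop_atTop.comp (tendsto_rpow_atTop (by linarith : 0 < 2 * ε))
    have h2 : (fun x : ℝ => 2 * Real.log x) =o[atTop] fun x : ℝ => x ^ (2 * ε) :=
      (isLittleO_log_rpow_atTop (by linarith : 0 < 2 * ε)).const_mul_left 2
    exact (h1.add h2).const_mul_left K
  have hev := (hlo.bound (c := 1) one_pos)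
  have hev2 := tendsto_natCast_atTop_atTop (R := ℝ) |>.eventually hev
  filter_upwards [hev2, eventually_ge_atTop 1] with N h1 h2
  have hN1 : (1 : ℝ) ≤ N := by exact_mod_cast h2
  have hN0 : (0 : ℝ) < N := by linarith
  have hlogN : 0 ≤ Real.log N := Real.log_natCast_nonneg N
  rw [one_mul, Real.norm_of_nonneg (by positivity), Real.norm_of_nonneg (by positivity)] at h1
  have h3 := main N h2
  have h4 : ‖SQ y N‖ ^ 2 ≤ ((N : ℝ) ^ (α + ε)) ^ 2 := by
    calc ‖SQ y N‖ ^ 2 ≤ K * ((N : ℝ) ^ (2 * α) * (1 + 2 * Real.log N)) := h3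
      _ = (N : ℝ) ^ (2 * α) * (K * (1 + 2 * Real.log N)) := by ring
      _ ≤ (N : ℝ) ^ (2 * α) * (N : ℝ) ^ (2 * ε) := by gcongr
      _ = ((N : ℝ) ^ (α + ε)) ^ 2 := by
        rw [← Real.rpow_add hN0, ← Real.rpow_natCast, ← Real.rpow_mul hN0.le]
        congr 1
        push_cast; ring
  exact (sq_le_sq₀ (norm_nonneg _) (by positivity)).1 h4

theorem lowerE (τ : ℝ) (hτ : 2 < τ) (y C : ℝ) (hC : 0 < C)
    (h : ∀ M : ℕ, ∃ q : ℕ, M ≤ q ∧ Odd q ∧ ∃ a : ℤ, IsCoprime a (q : ℤ) ∧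
      |y - a / q| ≤ C * (q : ℝ) ^ (-τ)) (s : ℝ) (hs0 : 0 < s) (hs : s < 1 - 1 / τ) :
    ∃ᶠ N : ℕ in atTop, (N : ℝ) ^ s ≤ ‖SQ y N‖ := by
  have hτ0 : 0 < τ := by linarith
  set c0 : ℝ := 1 / (4 * (C + 1)) with hc0
  have hc00 : 0 < c0 := by positivity
  have hc01 : c0 ≤ 1 := by
    rw [hc0, div_le_one (by positivity)]
    linarith
  have hc0C : 2 * Real.pi * C * c0 ^ 2 ≤ 1 / 2 := by
    have hpi := Real.pi_lt_four
    have hpi0 := Real.pi_pos
    have h1 : C ≤ (C + 1) ^ 2 := by nlinarith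
    rw [hc0, div_pow, one_pow, mul_one_div, div_le_iff₀ (by positivity)]
    nlinarith [mul_le_mul hpi.le h1 hC.le (by norm_num)]
  -- three asymptotic facts
  have f1 : ∀ᶠ x : ℝ in atTop, 4 ≤ c0 * x ^ (τ / 2) :=
    (Tendsto.const_mul_atTop hc00 (tendsto_rpow_atTop (by linarith : 0 < τ / 2))).eventually_ge_atTop 4
  have f2 : ∀ᶠ x : ℝ in atTop, 11 * √(x * (1 + Real.log x)) ≤ (c0 / 8) * x ^ ((τ - 1) / 2) := by
    have h1 : (fun x : ℝ => 1 + Real.log x) =o[atTop] fun x : ℝ => x ^ (τ - 2) := by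
      have h1 : (fun _ : ℝ => (1 : ℝ)) =o[atTop] fun x : ℝ => x ^ (τ - 2) := by
        rw [Asymptotics.isLittleO_const_left_of_ne one_ne_zero]
        exact tendsto_norm_atTop_atTop.comp (tendsto_rpow_atTop (by linarith : 0 < τ - 2))
      exact h1.add (isLittleO_log_rpow_atTop (by linarith : 0 < τ - 2))
    have h2 := h1.bound (c := (c0 / 88) ^ 2) (by positivity)
    filter_upwards [h2, eventually_ge_atTop 1] with x hx hx1
    have hx0 : 0 < x := by linarith
    have hlog : 0 ≤ Real.log x := Real.log_nonneg hx1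
    rw [Real.norm_of_nonneg (by positivity), Real.norm_of_nonneg (by positivity)] at hx
    have h3 : x * (1 + Real.log x) ≤ (c0 / 88 * x ^ ((τ - 1) / 2)) ^ 2 := by
      calc x * (1 + Real.log x) ≤ x * ((c0 / 88) ^ 2 * x ^ (τ - 2)) := by gcongr
        _ = (c0 / 88) ^ 2 * (x ^ (1 : ℝ) * x ^ (τ - 2)) := by rw [Real.rpow_one]; ring
        _ = (c0 / 88 * x ^ ((τ - 1) / 2)) ^ 2 := by
          rw [← Real.rpow_add hx0, mul_pow, ← Real.rpow_natCast (x ^ ((τ - 1) / 2)),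
            ← Real.rpow_mul hx0.le]
          congr 2
          push_cast; ring
    have h4 : √(x * (1 + Real.log x)) ≤ c0 / 88 * x ^ ((τ - 1) / 2) :=
      Real.sqrt_le_iff.2 ⟨by positivity, h3⟩
    linarith
  have f3 : ∀ᶠ x : ℝ in atTop, x ^ (τ / 2 * s) ≤ (c0 / 8) * x ^ ((τ - 1) / 2) := by
    have hlt : τ / 2 * s < (τ - 1) / 2 := by
      have : τ * s < τ * (1 - 1 / τ) := by gcongr
      have h2 : τ * (1 - 1 / τ) = τ - 1 := by field_simp
      linarith
    have h1 := (tendsto_rpow_atTop (by linarith : 0 < (τ - 1) / 2 - τ / 2 * s)).eventually_ge_atTop (8 / c0)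
    filter_upwards [h1, eventually_ge_atTop 1] with x hx hx1
    have hx0 : 0 < x := by linarith
    rw [div_le_iff₀ hc00] at hx
    have h2 : x ^ ((τ - 1) / 2) = x ^ (τ / 2 * s) * x ^ ((τ - 1) / 2 - τ / 2 * s) := by
      rw [← Real.rpow_add hx0]
      congr 1; ring
    rw [h2]
    have h3 : 0 < x ^ (τ / 2 * s) := by positivity
    nlinarith
  have f4 : ∀ M : ℕ, ∀ᶠ x : ℝ in atTop, (M : ℝ) + 4 ≤ c0 * x ^ (τ / 2) := fun M =>
    (Tendsto.const_mul_atTop hc00 (tendsto_rpow_atTop (by linarith : 0 < τ / 2))).eventually_ge_atTop _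
  rw [frequently_atTop]
  intro M
  have hall := tendsto_natCast_atTop_atTop (R := ℝ) |>.eventually (f1.and (f2.and (f3.and (f4 M))))
  obtain ⟨q0, hq0⟩ := eventually_atTop.1 hall
  obtain ⟨q, hqM, hodd, a, hco, hy⟩ := h (q0 + 1)
  obtain ⟨g1, g2, g3, g4⟩ := hq0 q (by omega)
  have hq1 : 1 ≤ q := by omega
  have hqpos : (0 : ℝ) < q := by exact_mod_cast hq1
  set Z : ℝ := c0 * (q : ℝ) ^ (τ / 2) with hZ
  have hZ4 : 4 ≤ Z := g1
  set n : ℕ := ⌊Z⌋₊ with hn
  have hn1 : (n : ℝ) ≤ Z := Nat.floor_le (by linarith)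
  have hn2 : Z < n + 1 := Nat.lt_floor_add_one Z
  have hn3 : 3 ≤ n := by
    have : (3 : ℝ) < n := by linarith
    exact_mod_cast this.le
  obtain ⟨N, hNn⟩ : ∃ N, n = N + 1 := ⟨n - 1, by omega⟩
  rw [hNn] at hn1 hn2
  push_cast at hn1 hn2
  have hNZ : Z / 2 ≤ N := by linarith
  have hNM : M ≤ N := by
    have : (M : ℝ) ≤ N := by linarith
    exact_mod_cast this
  refine ⟨N, hNM, ?_⟩
  have hpi := Real.pi_pos
  have hcond : 2 * Real.pi * |y - a / q| * ((N : ℝ) + 1) ^ 2 ≤ 1 / 2 := by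
    refine le_trans ?_ hc0C
    have h1 : ((N : ℝ) + 1) ^ 2 ≤ Z ^ 2 := by
      apply pow_le_pow_left₀ (by positivity) hn1
    have h2 : Z ^ 2 = c0 ^ 2 * (q : ℝ) ^ τ := by
      rw [hZ, mul_pow, ← Real.rpow_natCast ((q : ℝ) ^ (τ / 2)), ← Real.rpow_mul hqpos.le]
      congr 2
      push_cast; ring
    calc 2 * Real.pi * |y - a / q| * ((N : ℝ) + 1) ^ 2
        ≤ 2 * Real.pi * (C * (q : ℝ) ^ (-τ)) * (c0 ^ 2 * (q : ℝ) ^ τ) := by
          rw [h2] at h1
          gcongr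
      _ = 2 * Real.pi * C * c0 ^ 2 * ((q : ℝ) ^ (-τ) * (q : ℝ) ^ τ) := by ring
      _ = 2 * Real.pi * C * c0 ^ 2 := by
          rw [← Real.rpow_add hqpos, neg_add_cancel, Real.rpow_zero, mul_one]
  have hlow := lower N q hq1 hodd a hco y hcond
  have hsq0 : 0 < √(q : ℝ) := Real.sqrt_pos.2 hqpos
  have h5 : (c0 / 4) * (q : ℝ) ^ ((τ - 1) / 2) ≤ N / (2 * √q) := by
    rw [le_div_iff₀ (by positivity)]
    have h6 : (q : ℝ) ^ ((τ - 1) / 2) * √q = (q : ℝ) ^ (τ / 2) := by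
      rw [Real.sqrt_eq_rpow, ← Real.rpow_add hqpos]
      congr 1; ring
    calc c0 / 4 * (q : ℝ) ^ ((τ - 1) / 2) * (2 * √q) =
        (c0 * ((q : ℝ) ^ ((τ - 1) / 2) * √q)) / 2 := by ring
      _ = Z / 2 := by rw [h6]
      _ ≤ N := hNZ
  have h7 : (N : ℝ) ^ s ≤ (q : ℝ) ^ (τ / 2 * s) := by
    rw [Real.rpow_mul hqpos.le]
    apply Real.rpow_le_rpow (by positivity) _ hs0.le
    have : Z ≤ 1 * (q : ℝ) ^ (τ / 2) := by
      rw [hZ]; gcongr
    linarith
  calc (N : ℝ) ^ s ≤ (q : ℝ) ^ (τ / 2 * s) := h7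
    _ ≤ (c0 / 8) * (q : ℝ) ^ ((τ - 1) / 2) := g3
    _ ≤ (c0 / 4) * (q : ℝ) ^ ((τ - 1) / 2) - 11 * √(q * (1 + Real.log q)) := by linarith
    _ ≤ N / (2 * √q) - 11 * √(q * (1 + Real.log q)) := by linarith
    _ ≤ ‖SQ y N‖ := hlow

end Pool.Agent.K4H3.WS
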